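import Mathlib
import Pool.Agent.U500.Inst.Rho

set_option autoImplicit false

/-!
# Defining functions `|z|² + e^{2V(z)} |y|² - 1`: Levi form
-/

open Metric Set
open scoped ContDiff InnerProductSpace

namespace Pool.Agent.U500.Cone

open Pool.Agent.U500.Inst

variable {n : ℕ}

noncomputable def rhoV (V : ℂ → ℝ) (x : Fin (n + 2) → ℂ) : ℝ :=
  ‖x 0‖ ^ 2 + Real.exp (2 * V (x 0)) * NN x - 1

/-- second derivative along a line -/
noncomputable def L2 (V : ℂ → ℝ) (z a : ℂ) : ℝ := iteratedDeriv 2 (fun σ : ℝ => V (z + σ • a)) 0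

lemma line_V {V : ℂ → ℝ} (hV : Differentiable ℝ V) (z a : ℂ) (σ : ℝ) :
    HasDerivAt (fun σ : ℝ => V (z + σ • a)) (fderiv ℝ V (z + σ • a) a) σ :=
  (hV (z + σ • a)).hasFDerivAt.comp_hasDerivAt σ (hasDerivAt_line z a σ)

lemma line_V1 {V : ℂ → ℝ} (hV : ContDiff ℝ ∞ V) (z a : ℂ) :
    HasDerivAt (fun σ : ℝ => fderiv ℝ V (z + σ • a) a) (L2 V z a) 0 := by
  have hd : Differentiable ℝ V := hV.differentiable (by simp)
  set g : ℝ → ℝ := fun σ => V (z + σ • a) with hg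
  have hgc : ContDiff ℝ ∞ g := by
    apply hV.comp
    exact contDiff_const.add (contDiff_id.smul contDiff_const)
  have h1 : iteratedDeriv 1 g = fun σ : ℝ => fderiv ℝ V (z + σ • a) a := by
    rw [iteratedDeriv_one]
    funext σ
    exact (line_V hd z a σ).deriv
  have h2 : Differentiable ℝ (iteratedDeriv 1 g) :=
    hgc.differentiable_iteratedDeriv 1 (by
      rw [show ((1 : ℕ) : WithTop ℕ∞) = ((1 : ℕ∞) : WithTop ℕ∞) from rfl]
      exact_mod_cast WithTop.coe_lt_top 1)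
  have h3 : L2 V z a = deriv (iteratedDeriv 1 g) 0 := by
    unfold L2
    rw [iteratedDeriv_succ]
  rw [h3, ← h1]
  exact (h2 0).hasDerivAt

/-- first derivative along a line -/
noncomputable def r1V (V : ℂ → ℝ) (x v : Fin (n + 2) → ℂ) : ℝ :=
  2 * ⟪x 0, v 0⟫_ℝ + (Real.exp (2 * V (x 0)) * (2 * fderiv ℝ V (x 0) (v 0)) * NN x +
    Real.exp (2 * V (x 0)) * N1 x v)

lemma line_rhoV {V : ℂ → ℝ} (hV : Differentiable ℝ V) (x v : Fin (n + 2) → ℂ) (σ : ℝ) :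
    HasDerivAt (fun σ : ℝ => rhoV V (x + σ • v)) (r1V V (x + σ • v) v) σ := by
  have h1 := (hasDerivAt_line (x 0) (v 0) σ).norm_sq
  have h2 := ((line_V hV (x 0) (v 0) σ).const_mul 2).exp
  exact (h1.add (h2.mul (line_NN x v σ))).sub_const 1

lemma line_r1V {V : ℂ → ℝ} (hV : ContDiff ℝ ∞ V) (x v : Fin (n + 2) → ℂ) :
    HasDerivAt (fun σ : ℝ => r1V V (x + σ • v) v)
      (2 * ‖v 0‖ ^ 2 + Real.exp (2 * V (x 0)) * (4 * (fderiv ℝ V (x 0) (v 0)) ^ 2 * NN x +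
        4 * (fderiv ℝ V (x 0) (v 0) * N1 x v) + 2 * L2 V (x 0) (v 0) * NN x + 2 * NN v)) 0 := by
  have hd : Differentiable ℝ V := hV.differentiable (by simp)
  have h1 := ((hasDerivAt_line (x 0) (v 0) 0).inner ℝ (hasDerivAt_const (0 : ℝ) (v 0))).const_mul 2
  have h2 := ((line_V hd (x 0) (v 0) 0).const_mul 2).exp
  have h3 := (line_V1 hV (x 0) (v 0)).const_mul 2
  have h4 := (h2.mul h3).mul (line_NN x v 0)
  have h5 := h2.mul (line_N1 x v 0)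
  refine HasDerivAt.congr_deriv (h1.add (h4.add h5)) ?_
  simp only [zero_smul, add_zero, inner_zero_right, zero_add, real_inner_self_eq_norm_sq,
    Pi.mul_apply]
  ring

lemma leviForm_rhoV {V : ℂ → ℝ} (hV : ContDiff ℝ ∞ V) (x v : Fin (n + 2) → ℂ) :
    leviForm (rhoV V) x v = ‖v 0‖ ^ 2 + Real.exp (2 * V (x 0)) *
      (((fderiv ℝ V (x 0) (v 0)) ^ 2 + (fderiv ℝ V (x 0) (Complex.I * v 0)) ^ 2) * NN x +
        (fderiv ℝ V (x 0) (v 0) * N1 x v +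
          fderiv ℝ V (x 0) (Complex.I * v 0) * N1 x (Complex.I • v)) +
        (L2 V (x 0) (v 0) + L2 V (x 0) (Complex.I * v 0)) / 2 * NN x + NN v) := by
  have hd : Differentiable ℝ V := hV.differentiable (by simp)
  unfold leviForm
  rw [iter2 (line_rhoV hd x v) (line_r1V hV x v),
    iter2 (line_rhoV hd x (Complex.I • v)) (line_r1V hV x (Complex.I • v))]
  have h1 : NN (Complex.I • v) = NN v := by
    unfold NN
    simp
  have h2 : ‖(Complex.I • v) 0‖ = ‖v 0‖ := by simp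
  have h3 : (Complex.I • v) 0 = Complex.I * v 0 := rfl
  rw [h1, h2, h3]
  ring

/-- Cauchy-Schwarz for the derivatives of `NN` -/
lemma N1_cauchy (x v : Fin (n + 2) → ℂ) :
    N1 x v ^ 2 + N1 x (Complex.I • v) ^ 2 ≤ 4 * NN x * NN v := by
  set c : ℂ := ∑ i : Fin (n + 1), starRingEnd ℂ (x i.succ) * v i.succ with hc
  have h1 : N1 x v = 2 * c.re := by
    unfold N1
    rw [hc, Complex.re_sum, Finset.mul_sum]
    refine Finset.sum_congr rfl fun i _ => ?_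
    rw [Complex.inner, mul_comm (v i.succ)]
  have h2 : N1 x (Complex.I • v) = -(2 * c.im) := by
    unfold N1
    rw [hc, Complex.im_sum, Finset.mul_sum, ← Finset.sum_neg_distrib]
    refine Finset.sum_congr rfl fun i _ => ?_
    rw [Complex.inner]
    simp
    ring
  have h3 : ‖c‖ ^ 2 ≤ NN x * NN v := by
    have h4 : ‖c‖ ≤ ∑ i : Fin (n + 1), ‖x i.succ‖ * ‖v i.succ‖ := by
      refine (norm_sum_le _ _).trans (le_of_eq ?_)
      refine Finset.sum_congr rfl fun i _ => ?_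
      rw [norm_mul, RCLike.norm_conj]
    calc ‖c‖ ^ 2 ≤ (∑ i : Fin (n + 1), ‖x i.succ‖ * ‖v i.succ‖) ^ 2 := by gcongr
      _ ≤ (∑ i : Fin (n + 1), ‖x i.succ‖ ^ 2) * ∑ i : Fin (n + 1), ‖v i.succ‖ ^ 2 :=
        Finset.sum_mul_sq_le_sq_mul_sq _ _ _
  have h5 : ‖c‖ ^ 2 = c.re ^ 2 + c.im ^ 2 := by
    rw [← Complex.normSq_eq_norm_sq, Complex.normSq_apply]; ring
  rw [h1, h2]
  nlinarith

/-- the inequality between real numbers behind `levi_core` -/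
lemma levi_real (e N M α1 α2 β1 β2 γ1 γ2 S A Z : ℝ) (he1 : 1 ≤ e) (hN : 0 ≤ N) (hM : 0 ≤ M)
    (hA0 : 0 ≤ A) (hZ0 : 0 ≤ Z) (hcs : β1 ^ 2 + β2 ^ 2 ≤ 4 * N * M) (hγ : γ1 ^ 2 + γ2 ^ 2 = Z * A)
    (hα1 : α1 ^ 2 ≤ A / 4) (hα2 : α2 ^ 2 ≤ A / 4) (hY : e * N = 1 - Z)
    (hT1 : e * β1 = -(2 * γ1 + 2 * α1 * (e * N))) (hT2 : e * β2 = -(2 * γ2 + 2 * α2 * (e * N)))
    (hS : -(1.1 * A) ≤ (1 - Z) ^ 2 * S) :
    A + M ≤ 10 * (A + e * ((α1 ^ 2 + α2 ^ 2) * N + (α1 * β1 + α2 * β2) + S / 2 * N + M)) := by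
  rcases eq_or_lt_of_le hN with hN0 | hN0
  · -- `N = 0`
    have hN0' : N = 0 := hN0.symm
    rw [hN0'] at hcs ⊢
    have hβ1 : β1 = 0 := by nlinarith [sq_nonneg β1, sq_nonneg β2]
    have hβ2 : β2 = 0 := by nlinarith [sq_nonneg β1, sq_nonneg β2]
    rw [hβ1, hβ2]
    nlinarith
  · have hYpos : 0 < e * N := by positivity
    set L := A + e * ((α1 ^ 2 + α2 ^ 2) * N + (α1 * β1 + α2 * β2) + S / 2 * N + M) with hL
    set R := e ^ 2 * (4 * N * M - (β1 ^ 2 + β2 ^ 2)) with hR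
    have hR0 : 0 ≤ R := by
      apply mul_nonneg (by positivity)
      linarith
    -- the identity
    have hid : 4 * (e * N) * L = 4 * A + R + 2 * ((1 - Z) ^ 2 * S) := by
      have e1 : 4 * (e * N) * L = 4 * A * (e * N) + ((2 * α1 * (e * N) + e * β1) ^ 2 +
          (2 * α2 * (e * N) + e * β2) ^ 2) + R + 2 * ((e * N) ^ 2 * S) := by
        rw [hL, hR]; ring
      rw [e1, hT1, hT2]
      have e2 : (2 * α1 * (e * N) + -(2 * γ1 + 2 * α1 * (e * N))) ^ 2 +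
          (2 * α2 * (e * N) + -(2 * γ2 + 2 * α2 * (e * N))) ^ 2 = 4 * (γ1 ^ 2 + γ2 ^ 2) := by ring
      rw [e2, hγ, hY]
      ring
    have h2 : e ^ 2 * (4 * N * M) = R + ((e * β1) ^ 2 + (e * β2) ^ 2) := by rw [hR]; ring
    clear_value L R
    have h1 : 1.8 * A + R ≤ 4 * (e * N) * L := by
      rw [hid]; linarith
    -- bound of `M`
    have hY1 : e * N ≤ 1 := by linarith
    have hZ1 : Z ≤ 1 := by linarith
    have h3 : (e * β1) ^ 2 + (e * β2) ^ 2 ≤ 12 * A := by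
      rw [hT1, hT2]
      have a1 : (-(2 * γ1 + 2 * α1 * (e * N))) ^ 2 ≤ 8 * γ1 ^ 2 + 8 * (α1 ^ 2 * (e * N) ^ 2) := by
        have b1 := sq_nonneg (γ1 - α1 * (e * N))
        have b2 : 8 * γ1 ^ 2 + 8 * (α1 ^ 2 * (e * N) ^ 2) - (-(2 * γ1 + 2 * α1 * (e * N))) ^ 2 =
          4 * (γ1 - α1 * (e * N)) ^ 2 := by ring
        linarith
      have a2 : (-(2 * γ2 + 2 * α2 * (e * N))) ^ 2 ≤ 8 * γ2 ^ 2 + 8 * (α2 ^ 2 * (e * N) ^ 2) := by
        have b1 := sq_nonneg (γ2 - α2 * (e * N))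
        have b2 : 8 * γ2 ^ 2 + 8 * (α2 ^ 2 * (e * N) ^ 2) - (-(2 * γ2 + 2 * α2 * (e * N))) ^ 2 =
          4 * (γ2 - α2 * (e * N)) ^ 2 := by ring
        linarith
      have a3 : (e * N) ^ 2 ≤ 1 := pow_le_one₀ hYpos.le hY1
      have a4 : α1 ^ 2 * (e * N) ^ 2 ≤ A / 4 * 1 := by gcongr
      have a5 : α2 ^ 2 * (e * N) ^ 2 ≤ A / 4 * 1 := by gcongr
      have a6 : γ1 ^ 2 + γ2 ^ 2 ≤ A := by
        rw [hγ]
        exact mul_le_of_le_one_left hA0 hZ1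
      linarith
    have h4 : 4 * (e * N) * M ≤ e ^ 2 * (4 * N * M) := by
      have a1 : 0 ≤ N * M := by positivity
      have a2 : 0 ≤ e * (e - 1) * (N * M) :=
        mul_nonneg (mul_nonneg (by linarith) (by linarith)) a1
      have a3 : e ^ 2 * (4 * N * M) - 4 * (e * N) * M = 4 * (e * (e - 1) * (N * M)) := by ring
      linarith
    have h5 : 4 * (e * N) * A ≤ 4 * A := by
      have := mul_le_mul_of_nonneg_right hY1 hA0
      linarith
    have h6 : 4 * (e * N) * (A + M) ≤ 4 * (e * N) * (10 * L) := by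
      have a1 : 4 * (e * N) * (A + M) = 4 * (e * N) * A + 4 * (e * N) * M := by ring
      have a2 : 4 * (e * N) * (10 * L) = 10 * (4 * (e * N) * L) := by ring
      rw [a1, a2]
      linarith
    exact le_of_mul_le_mul_left h6 (by positivity)

/-- Lower bound of the Levi form on the complex tangent space. -/
lemma levi_core {V : ℂ → ℝ} (hV : ContDiff ℝ ∞ V) (x v : Fin (n + 2) → ℂ) (hx : rhoV V x = 0)
    (hV0 : 0 ≤ V (x 0)) (hα : ∀ a : ℂ, |fderiv ℝ V (x 0) a| ≤ 1 / 2 * ‖a‖)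
    (hS : -(1.1 * ‖v 0‖ ^ 2) ≤
      (1 - ‖x 0‖ ^ 2) ^ 2 * (L2 V (x 0) (v 0) + L2 V (x 0) (Complex.I * v 0)))
    (hT1 : r1V V x v = 0) (hT2 : r1V V x (Complex.I • v) = 0) :
    nsq v ≤ 10 * leviForm (rhoV V) x v := by
  have hα1 := hα (v 0)
  have hα2 := hα (Complex.I * v 0)
  rw [norm_mul, Complex.norm_I, one_mul] at hα2
  have hα1' : (fderiv ℝ V (x 0) (v 0)) ^ 2 ≤ ‖v 0‖ ^ 2 / 4 := by
    have : |fderiv ℝ V (x 0) (v 0)| ^ 2 ≤ (1 / 2 * ‖v 0‖) ^ 2 := by gcongr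
    rw [sq_abs] at this
    linarith
  have hα2' : (fderiv ℝ V (x 0) (Complex.I * v 0)) ^ 2 ≤ ‖v 0‖ ^ 2 / 4 := by
    have : |fderiv ℝ V (x 0) (Complex.I * v 0)| ^ 2 ≤ (1 / 2 * ‖v 0‖) ^ 2 := by gcongr
    rw [sq_abs] at this
    linarith
  rw [leviForm_rhoV hV, nsq_eq]
  unfold r1V at hT1 hT2
  rw [show (Complex.I • v) 0 = Complex.I * v 0 from rfl] at hT2
  unfold rhoV at hx
  refine levi_real _ _ _ _ _ _ _ _ _ _ _ (‖x 0‖ ^ 2) ?_ (NN_nonneg x) (NN_nonneg v) (by positivity)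
    (by positivity) (N1_cauchy x v) (inner_sq_add (x 0) (v 0)) hα1' hα2' (by linarith) ?_ ?_ hS
  · rw [Real.one_le_exp_iff]; linarith
  · linarith
  · linarith

end Pool.Agent.U500.Cone
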