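import Mathlib

set_option autoImplicit false

/-!
# The cutoff function `χ(y) = 50 exp (-28 / y)` (`y > 0`)
-/

open Set Polynomial

namespace Pool.Agent.U500.Cone

/-- the cutoff function -/
noncomputable def chi (y : ℝ) : ℝ := 50 * expNegInvGlue (y / 28)

noncomputable def chi1 (y : ℝ) : ℝ := 50 / 28 * ((y / 28)⁻¹ ^ 2 * expNegInvGlue (y / 28))

noncomputable def chi2 (y : ℝ) : ℝ :=
  50 / 28 ^ 2 * (((y / 28)⁻¹ ^ 4 - 2 * (y / 28)⁻¹ ^ 3) * expNegInvGlue (y / 28))

lemma e0_deriv (x : ℝ) : HasDerivAt expNegInvGlue (x⁻¹ ^ 2 * expNegInvGlue x) x := by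
  have h := expNegInvGlue.hasDerivAt_polynomial_eval_inv_mul 1 x
  simpa using h

lemma e1_deriv (x : ℝ) : HasDerivAt (fun x => x⁻¹ ^ 2 * expNegInvGlue x)
    ((x⁻¹ ^ 4 - 2 * x⁻¹ ^ 3) * expNegInvGlue x) x := by
  have h := expNegInvGlue.hasDerivAt_polynomial_eval_inv_mul (X ^ 2) x
  have e1 : (fun x : ℝ => (X ^ 2 : ℝ[X]).eval x⁻¹ * expNegInvGlue x) =
      fun x => x⁻¹ ^ 2 * expNegInvGlue x := by
    funext y; simp
  rw [e1] at h
  convert h using 1
  simp only [derivative_X_pow, eval_mul, eval_sub, eval_pow, eval_X, map_natCast, eval_natCast]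
  norm_num
  left
  ring

lemma chi_deriv (y : ℝ) : HasDerivAt chi (chi1 y) y := by
  unfold chi chi1
  have h1 : HasDerivAt (fun y : ℝ => y / 28) (1 / 28) y := (hasDerivAt_id y).div_const 28
  have h := ((e0_deriv (y / 28)).comp y h1).const_mul 50
  refine h.congr_deriv ?_
  ring

lemma chi1_deriv (y : ℝ) : HasDerivAt chi1 (chi2 y) y := by
  unfold chi1 chi2
  have h1 : HasDerivAt (fun y : ℝ => y / 28) (1 / 28) y := (hasDerivAt_id y).div_const 28
  have h := ((e1_deriv (y / 28)).comp y h1).const_mul (50 / 28)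
  refine h.congr_deriv ?_
  ring

lemma contDiff_chi : ContDiff ℝ ((⊤ : ℕ∞) : WithTop ℕ∞) chi := by
  unfold chi
  exact contDiff_const.mul ((expNegInvGlue.contDiff (n := ⊤)).comp (contDiff_id.div_const 28))

lemma chi_nonneg (y : ℝ) : 0 ≤ chi y := by
  unfold chi
  have := expNegInvGlue.nonneg (y / 28)
  positivity

lemma chi_zero {y : ℝ} (hy : y ≤ 0) : chi y = 0 := by
  unfold chi
  rw [expNegInvGlue.zero_of_nonpos (by linarith), mul_zero]

lemma glue_pos {y : ℝ} (hy : 0 < y) : expNegInvGlue y = Real.exp (-y⁻¹) := by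
  unfold expNegInvGlue
  rw [if_neg (not_le.2 hy)]

lemma exp_two_ge : (7.36 : ℝ) ≤ Real.exp 2 := by
  have h1 := Real.exp_one_gt_d9
  have h2 : Real.exp 2 = Real.exp 1 * Real.exp 1 := by rw [← Real.exp_add]; norm_num
  rw [h2]
  nlinarith

lemma exp_neg_two_le : Real.exp (-2) ≤ 1 / 7.36 := by
  rw [Real.exp_neg, ← one_div]
  exact one_div_le_one_div_of_le (by norm_num) exp_two_ge

lemma chi_le {y : ℝ} (hy : y ≤ 14) : chi y ≤ 6.8 := by
  by_cases h0 : y ≤ 0
  · rw [chi_zero h0]; norm_num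
  · push Not at h0
    unfold chi
    rw [glue_pos (by positivity)]
    have h1 : 2 ≤ (y / 28)⁻¹ := by
      rw [inv_div, le_div_iff₀ h0]
      linarith
    have h2 : Real.exp (-(y / 28)⁻¹) ≤ Real.exp (-2) := Real.exp_le_exp.2 (by linarith)
    have h3 := exp_neg_two_le
    calc 50 * Real.exp (-(y / 28)⁻¹) ≤ 50 * (1 / 7.36) := by linarith
      _ ≤ 6.8 := by norm_num

lemma exp_28_le : Real.exp 2.8 ≤ 16.6 := by
  have h1 := Real.exp_one_lt_d9
  have h2 : Real.exp 2.8 ^ 5 = Real.exp 1 ^ 14 := by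
    rw [← Real.exp_nat_mul, ← Real.exp_nat_mul]
    norm_num
  have h3 : Real.exp 1 ^ 14 ≤ 2.7182818286 ^ 14 := by
    apply pow_le_pow_left₀ (Real.exp_pos 1).le h1.le
  have h4 : (2.7182818286 : ℝ) ^ 14 ≤ 16.6 ^ 5 := by norm_num
  apply le_of_pow_le_pow_left₀ (n := 5) (by norm_num) (by norm_num)
  linarith

lemma le_chi {y : ℝ} (hy : 10 ≤ y) : 2.6 ≤ chi y := by
  unfold chi
  rw [glue_pos (by positivity)]
  have h1 : (y / 28)⁻¹ ≤ 2.8 := by
    rw [inv_div, div_le_iff₀ (by linarith)]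
    linarith
  have h2 : Real.exp (-2.8) ≤ Real.exp (-(y / 28)⁻¹) := Real.exp_le_exp.2 (by linarith)
  have h3 : 1 / 16.6 ≤ Real.exp (-2.8) := by
    rw [Real.exp_neg, ← one_div]
    exact one_div_le_one_div_of_le (Real.exp_pos _) exp_28_le
  calc (2.6 : ℝ) ≤ 50 * (1 / 16.6) := by norm_num
    _ ≤ 50 * Real.exp (-(y / 28)⁻¹) := by linarith

lemma chi1_nonneg (y : ℝ) : 0 ≤ chi1 y := by
  unfold chi1
  have := expNegInvGlue.nonneg (y / 28)
  positivity

lemma chi1_le {y : ℝ} (hy : y ≤ 14) : chi1 y ≤ 1 := by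
  by_cases h0 : y ≤ 0
  · unfold chi1
    rw [expNegInvGlue.zero_of_nonpos (by linarith)]
    norm_num
  · push Not at h0
    unfold chi1
    rw [glue_pos (by positivity)]
    have h1 : 2 ≤ (y / 28)⁻¹ := by
      rw [inv_div, le_div_iff₀ h0]
      linarith
    set q := (y / 28)⁻¹ with hq
    have h2 : q / 2 ≤ Real.exp ((q - 2) / 2) := by
      have := Real.add_one_le_exp ((q - 2) / 2)
      linarith
    have h3 : (q / 2) ^ 2 ≤ Real.exp (q - 2) := by
      calc (q / 2) ^ 2 ≤ Real.exp ((q - 2) / 2) ^ 2 := by gcongr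
        _ = Real.exp (q - 2) := by rw [← Real.exp_nat_mul]; congr 1; push_cast; ring
    have h4 : q ^ 2 * Real.exp (-q) ≤ 4 * Real.exp (-2) := by
      calc q ^ 2 * Real.exp (-q) = 4 * (q / 2) ^ 2 * Real.exp (-q) := by ring
        _ ≤ 4 * Real.exp (q - 2) * Real.exp (-q) := by gcongr
        _ = 4 * Real.exp (-2) := by
            rw [mul_assoc, ← Real.exp_add]; congr 2; ring
    have h5 := exp_neg_two_le
    calc 50 / 28 * (q ^ 2 * Real.exp (-q)) ≤ 50 / 28 * (4 * (1 / 7.36)) := by linarith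
      _ ≤ 1 := by norm_num

lemma chi2_nonneg {y : ℝ} (hy : y ≤ 14) : 0 ≤ chi2 y := by
  by_cases h0 : y ≤ 0
  · unfold chi2
    rw [expNegInvGlue.zero_of_nonpos (by linarith)]
    norm_num
  · push Not at h0
    unfold chi2
    have h1 : 2 ≤ (y / 28)⁻¹ := by
      rw [inv_div, le_div_iff₀ h0]
      linarith
    set q := (y / 28)⁻¹ with hq
    have h2 := expNegInvGlue.nonneg (y / 28)
    have h3 : 0 ≤ q ^ 4 - 2 * q ^ 3 := by
      have : q ^ 4 - 2 * q ^ 3 = q ^ 3 * (q - 2) := by ring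
      rw [this]
      exact mul_nonneg (by positivity) (by linarith)
    positivity

end Pool.Agent.U500.Cone
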