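import Mathlib
import Pool.Agent.U500.Cone.Chi
import Pool.Agent.U500.Inst.Prof

set_option autoImplicit false

/-!
# The compactly supported profile
-/

open Metric Set
open scoped ContDiff InnerProductSpace

namespace Pool.Agent.U500.Cone

open Pool.Agent.U500.Inst (hasDerivAt_line inner_sq_add iter2)

noncomputable def f0 (m : ℕ) (x : ℂ) : ℂ := x ^ m - 1
noncomputable def f1 (m : ℕ) (x : ℂ) : ℂ := m * x ^ (m - 1)
noncomputable def f2 (m : ℕ) (x : ℂ) : ℂ := m * (((m - 1 : ℕ) : ℂ) * x ^ (m - 1 - 1))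

noncomputable def gg (m : ℕ) (x : ℂ) : ℝ := ‖f0 m x‖ ^ 2 + Real.exp (-(12 * m))

noncomputable def YY (m : ℕ) (x : ℂ) : ℝ := 12 + Real.log (gg m x) / m - ‖x‖ ^ 2 / 4

/-- the profile -/
noncomputable def PP (m : ℕ) (x : ℂ) : ℝ := chi (YY m x)

lemma gg_pos (m : ℕ) (x : ℂ) : 0 < gg m x := by
  unfold gg; positivity

lemma contDiff_gg (m : ℕ) : ContDiff ℝ ∞ (gg m) := by
  unfold gg f0
  apply ContDiff.add _ contDiff_const
  apply ContDiff.norm_sq ℝ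
  fun_prop

lemma contDiff_YY (m : ℕ) : ContDiff ℝ ∞ (YY m) := by
  unfold YY
  apply ContDiff.sub
  · exact contDiff_const.add (((contDiff_gg m).log fun z => (gg_pos m z).ne').div_const _)
  · exact (contDiff_id.norm_sq ℝ).div_const _

lemma contDiff_PP (m : ℕ) : ContDiff ℝ ∞ (PP m) := contDiff_chi.comp (contDiff_YY m)

lemma PP_nonneg (m : ℕ) (x : ℂ) : 0 ≤ PP m x := chi_nonneg _

lemma PP_root {m : ℕ} (hm : 0 < m) {a : ℂ} (ha : a ^ m = 1) : PP m a = 0 := by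
  apply chi_zero
  have hmR : (m : ℝ) ≠ 0 := by exact_mod_cast hm.ne'
  have h1 : ‖a‖ = 1 := by
    have h2 : ‖a‖ ^ m = 1 := by rw [← norm_pow, ha, norm_one]
    exact (pow_eq_one_iff_of_nonneg (norm_nonneg a) hm.ne').1 h2
  unfold YY gg f0
  rw [ha, sub_self, norm_zero, zero_pow (by norm_num), zero_add, Real.log_exp, h1]
  have : -(12 * (m : ℝ)) / m = -12 := by field_simp
  rw [this]
  norm_num

/-- `log g / m` for `‖x‖ ≥ 1` -/
lemma log_gg_le {m : ℕ} (hm : 0 < m) {x : ℂ} (hx : 1 ≤ ‖x‖) :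
    Real.log (gg m x) / m ≤ Real.log 5 + 2 * Real.log ‖x‖ := by
  have hmR : (1 : ℝ) ≤ m := by exact_mod_cast hm
  have h1 : ‖f0 m x‖ ≤ ‖x‖ ^ m + 1 := by
    unfold f0
    refine (norm_sub_le _ _).trans ?_
    rw [norm_one, norm_pow]
  have h0 : 1 ≤ ‖x‖ ^ m := one_le_pow₀ hx
  have h2 : gg m x ≤ 5 * (‖x‖ ^ m) ^ 2 := by
    unfold gg
    have h3 : Real.exp (-(12 * (m : ℝ))) ≤ 1 := by
      rw [Real.exp_le_one_iff]; linarith
    nlinarith [norm_nonneg (f0 m x)]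
  have h6 : Real.log (gg m x) ≤ Real.log 5 + 2 * m * Real.log ‖x‖ := by
    calc Real.log (gg m x) ≤ Real.log (5 * (‖x‖ ^ m) ^ 2) := Real.log_le_log (gg_pos m x) h2
      _ = _ := by
        rw [Real.log_mul (by norm_num) (by positivity), Real.log_pow, Real.log_pow]
        push_cast; ring
  have h7 : 0 ≤ Real.log 5 := Real.log_nonneg (by norm_num)
  rw [div_le_iff₀ (by linarith)]
  nlinarith [mul_nonneg h7 (by linarith : (0 : ℝ) ≤ m - 1)]

lemma log_gg_le' {m : ℕ} (hm : 0 < m) {x : ℂ} (hx : ‖x‖ ≤ 1) :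
    Real.log (gg m x) / m ≤ Real.log 5 := by
  have hmR : (1 : ℝ) ≤ m := by exact_mod_cast hm
  have h1 : ‖f0 m x‖ ≤ 2 := by
    unfold f0
    refine (norm_sub_le _ _).trans ?_
    rw [norm_one, norm_pow]
    have : ‖x‖ ^ m ≤ 1 := pow_le_one₀ (norm_nonneg _) hx
    linarith
  have h2 : gg m x ≤ 5 := by
    unfold gg
    have h3 : Real.exp (-(12 * (m : ℝ))) ≤ 1 := by
      rw [Real.exp_le_one_iff]; linarith
    nlinarith [norm_nonneg (f0 m x)]
  have h6 : Real.log (gg m x) ≤ Real.log 5 := Real.log_le_log (gg_pos m x) h2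
  have h7 : 0 ≤ Real.log 5 := Real.log_nonneg (by norm_num)
  rw [div_le_iff₀ (by linarith)]
  nlinarith [mul_nonneg h7 (by linarith : (0 : ℝ) ≤ m - 1)]

lemma log_20 : Real.log 5 + Real.log 4 ≤ 3 := by
  rw [← Real.log_mul (by norm_num) (by norm_num), Real.log_le_iff_le_exp (by norm_num)]
  have h1 := Real.exp_one_gt_d9
  have h2 : Real.exp 3 = Real.exp 1 * Real.exp 1 * Real.exp 1 := by
    rw [← Real.exp_add, ← Real.exp_add]; norm_num
  rw [h2]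
  have h3 : (7.38 : ℝ) ≤ Real.exp 1 * Real.exp 1 := by nlinarith
  nlinarith

lemma YY_le {m : ℕ} (hm : 0 < m) (x : ℂ) : YY m x ≤ 14 := by
  unfold YY
  have h20 := log_20
  have hl4 : 1 ≤ Real.log 4 := by
    rw [Real.le_log_iff_exp_le (by norm_num)]
    have := Real.exp_one_lt_d9
    linarith
  by_cases hx : 1 ≤ ‖x‖
  · have h1 := log_gg_le hm hx
    have h2 : Real.log (‖x‖ ^ 2 / 4) ≤ ‖x‖ ^ 2 / 4 - 1 :=
      Real.log_le_sub_one_of_pos (by positivity)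
    rw [Real.log_div (by positivity) (by norm_num), Real.log_pow] at h2
    push_cast at h2
    linarith
  · push Not at hx
    have h1 := log_gg_le' hm hx.le
    have h2 : 0 ≤ ‖x‖ ^ 2 / 4 := by positivity
    linarith

lemma PP_le {m : ℕ} (hm : 0 < m) (x : ℂ) : PP m x ≤ 6.8 := chi_le (YY_le hm x)

lemma PP_far {m : ℕ} (hm : 0 < m) {x : ℂ} (hx : 10 ≤ ‖x‖) : PP m x = 0 := by
  apply chi_zero
  unfold YY
  have h1 := log_gg_le hm (by linarith : 1 ≤ ‖x‖)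
  have h2 : Real.log (‖x‖ ^ 2 / 16) ≤ ‖x‖ ^ 2 / 16 - 1 :=
    Real.log_le_sub_one_of_pos (by positivity)
  rw [Real.log_div (by positivity) (by norm_num), Real.log_pow] at h2
  push_cast at h2
  have h3 : Real.log 16 = 2 * Real.log 4 := by
    rw [← Real.log_rpow (by norm_num)]; norm_num
  have h20 := log_20
  have hl4 : Real.log 4 ≤ 2 := by
    have h5 : 0 ≤ Real.log 5 := Real.log_nonneg (by norm_num)
    have h6 : Real.log 4 ≤ Real.log 5 := Real.log_le_log (by norm_num) (by norm_num)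
    linarith
  nlinarith

lemma PP_compact {m : ℕ} (hm : 0 < m) : HasCompactSupport (PP m) := by
  apply HasCompactSupport.intro (isCompact_closedBall (0 : ℂ) 10)
  intro x hx
  rw [mem_closedBall_zero_iff, not_le] at hx
  exact PP_far hm hx.le

lemma le_PP {m : ℕ} (hm : 0 < m) {x : ℂ} (hx : ‖x‖ ≤ 0.51) : 2.6 ≤ PP m x := by
  apply le_chi
  unfold YY
  have hmR : (1 : ℝ) ≤ m := by exact_mod_cast hm
  have h1 : 0.49 ≤ ‖f0 m x‖ := by
    unfold f0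
    rw [norm_sub_rev]
    have h2 : ‖x ^ m‖ ≤ 0.51 := by
      rw [norm_pow]
      calc ‖x‖ ^ m ≤ 0.51 ^ m := pow_le_pow_left₀ (norm_nonneg _) hx m
        _ ≤ 0.51 ^ 1 := pow_le_pow_of_le_one (by norm_num) (by norm_num) hm
        _ = 0.51 := pow_one _
    have h3 := norm_sub_norm_le (1 : ℂ) (x ^ m)
    rw [norm_one] at h3
    linarith
  have h2 : 0.24 ≤ gg m x := by
    unfold gg
    have := Real.exp_pos (-(12 * (m : ℝ)))
    nlinarith
  have h6 : -1.9 ≤ Real.log (gg m x) := by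
    rw [Real.le_log_iff_exp_le (gg_pos m x)]
    refine le_trans ?_ h2
    rw [Real.exp_neg, inv_le_comm₀ (Real.exp_pos _) (by norm_num)]
    have := Real.quadratic_le_exp_of_nonneg (x := 1.9) (by norm_num)
    norm_num at this ⊢
    linarith
  have h8 : -1.9 ≤ Real.log (gg m x) / m := by
    rw [le_div_iff₀ (by linarith)]
    nlinarith
  have h9 : ‖x‖ ^ 2 / 4 ≤ 0.1 := by nlinarith [norm_nonneg x]
  linarith

/-! ### second derivatives -/

lemma hasDerivAt_f0 (m : ℕ) (x : ℂ) : HasDerivAt (f0 m) (f1 m x) x :=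
  (hasDerivAt_pow m x).sub_const 1

lemma hasDerivAt_f1 (m : ℕ) (x : ℂ) : HasDerivAt (f1 m) (f2 m x) x :=
  (hasDerivAt_pow (m - 1) x).const_mul (m : ℂ)

lemma line_f0 (m : ℕ) (z a : ℂ) (σ : ℝ) :
    HasDerivAt (fun σ : ℝ => f0 m (z + σ • a)) (a * f1 m (z + σ • a)) σ := by
  have := (hasDerivAt_f0 m (z + σ • a)).scomp σ (hasDerivAt_line z a σ)
  exact this

lemma line_f1 (m : ℕ) (z a : ℂ) (σ : ℝ) :
    HasDerivAt (fun σ : ℝ => a * f1 m (z + σ • a)) (a * (a * f2 m (z + σ • a))) σ := by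
  have := ((hasDerivAt_f1 m (z + σ • a)).scomp σ (hasDerivAt_line z a σ)).const_mul a
  exact this

noncomputable def Y1 (m : ℕ) (x a : ℂ) : ℝ :=
  2 * ⟪f0 m x, a * f1 m x⟫_ℝ / gg m x / m - 2 * ⟪x, a⟫_ℝ / 4

noncomputable def Y2 (m : ℕ) (x a : ℂ) : ℝ :=
  (2 * (⟪f0 m x, a * (a * f2 m x)⟫_ℝ + ⟪a * f1 m x, a * f1 m x⟫_ℝ) * gg m x -
    2 * ⟪f0 m x, a * f1 m x⟫_ℝ * (2 * ⟪f0 m x, a * f1 m x⟫_ℝ)) / gg m x ^ 2 / m - 2 * ⟪a, a⟫_ℝ / 4

lemma line_gg (m : ℕ) (z a : ℂ) (σ : ℝ) :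
    HasDerivAt (fun σ : ℝ => gg m (z + σ • a))
      (2 * ⟪f0 m (z + σ • a), a * f1 m (z + σ • a)⟫_ℝ) σ := by
  unfold gg
  exact ((line_f0 m z a σ).norm_sq).add_const _

lemma line_YY (m : ℕ) (z a : ℂ) (σ : ℝ) :
    HasDerivAt (fun σ : ℝ => YY m (z + σ • a)) (Y1 m (z + σ • a) a) σ := by
  unfold YY Y1
  exact (((((line_gg m z a σ).log (gg_pos m _).ne').div_const _).const_add 12).sub
    ((hasDerivAt_line z a σ).norm_sq.div_const 4))

lemma line_Y1 (m : ℕ) (z a : ℂ) (σ : ℝ) :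
    HasDerivAt (fun σ : ℝ => Y1 m (z + σ • a) a) (Y2 m (z + σ • a) a) σ := by
  unfold Y1 Y2
  have h1 := ((line_f0 m z a σ).inner ℝ (line_f1 m z a σ)).const_mul 2
  have h2 := (h1.fun_div (line_gg m z a σ) (gg_pos m _).ne').div_const (m : ℝ)
  have h3 := (((hasDerivAt_line z a σ).inner ℝ (hasDerivAt_const σ a)).const_mul 2).div_const 4
  rw [inner_zero_right, zero_add] at h3
  exact h2.sub h3

lemma Y2_add (m : ℕ) (x a : ℂ) : -‖a‖ ^ 2 ≤ Y2 m x a + Y2 m x (Complex.I * a) := by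
  have h1 := inner_sq_add (f0 m x) (a * f1 m x)
  have hg := gg_pos m x
  have e1 : ⟪f0 m x, Complex.I * a * (Complex.I * a * f2 m x)⟫_ℝ =
      -⟪f0 m x, a * (a * f2 m x)⟫_ℝ := by
    rw [← inner_neg_right]
    congr 1
    linear_combination (a * (a * f2 m x)) * Complex.I_mul_I
  have e2 : ∀ w : ℂ, ⟪w, w⟫_ℝ = ‖w‖ ^ 2 := fun w => real_inner_self_eq_norm_sq w
  have e3 : ‖Complex.I * a * f1 m x‖ = ‖a * f1 m x‖ := by
    rw [mul_assoc, norm_mul, Complex.norm_I, one_mul]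
  have e4 : ‖Complex.I * a‖ = ‖a‖ := by rw [norm_mul, Complex.norm_I, one_mul]
  have hle : ‖f0 m x‖ ^ 2 ≤ gg m x := by
    unfold gg
    have := Real.exp_pos (-(12 * (m : ℝ)))
    linarith
  have key : Y2 m x a + Y2 m x (Complex.I * a) =
      (4 * ‖a * f1 m x‖ ^ 2 * (gg m x - ‖f0 m x‖ ^ 2) / gg m x ^ 2 / m) - ‖a‖ ^ 2 := by
    unfold Y2
    rw [e1, e2, e2, e2, e2, e3, e4, mul_assoc Complex.I a (f1 m x)]
    have : 4 * (⟪f0 m x, a * f1 m x⟫_ℝ ^ 2 + ⟪f0 m x, Complex.I * (a * f1 m x)⟫_ℝ ^ 2) =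
      4 * (‖f0 m x‖ ^ 2 * ‖a * f1 m x‖ ^ 2) := by rw [h1]
    rw [show ∀ A B C D : ℝ, A - C + (B - D) = (A + B) - (C + D) from fun A B C D => by ring,
      ← add_div, ← add_div]
    congr 1
    · congr 2
      linear_combination (-1 : ℝ) * this
    · ring
  rw [key]
  have h2 : 0 ≤ gg m x - ‖f0 m x‖ ^ 2 := by linarith
  have h3 : 0 ≤ 4 * ‖a * f1 m x‖ ^ 2 * (gg m x - ‖f0 m x‖ ^ 2) / gg m x ^ 2 / m := by positivity
  linarith

lemma line_PP (m : ℕ) (z a : ℂ) (σ : ℝ) :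
    HasDerivAt (fun σ : ℝ => PP m (z + σ • a)) (chi1 (YY m (z + σ • a)) * Y1 m (z + σ • a) a) σ :=
  (chi_deriv _).comp σ (line_YY m z a σ)

lemma line_P1 (m : ℕ) (z a : ℂ) :
    HasDerivAt (fun σ : ℝ => chi1 (YY m (z + σ • a)) * Y1 m (z + σ • a) a)
      (chi2 (YY m z) * Y1 m z a * Y1 m z a + chi1 (YY m z) * Y2 m z a) 0 := by
  refine HasDerivAt.congr_deriv
    (((chi1_deriv _).comp 0 (line_YY m z a 0)).mul (line_Y1 m z a 0)) ?_
  simp only [zero_smul, add_zero, Function.comp]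

/-- second derivative of the profile in direction `a` -/
lemma second_PP (m : ℕ) (z a : ℂ) : iteratedDeriv 2 (fun σ : ℝ => PP m (z + σ • a)) 0 =
    chi2 (YY m z) * Y1 m z a * Y1 m z a + chi1 (YY m z) * Y2 m z a :=
  iter2 (line_PP m z a) (line_P1 m z a)

lemma second_PP_add {m : ℕ} (hm : 0 < m) (z a : ℂ) :
    -‖a‖ ^ 2 ≤ iteratedDeriv 2 (fun σ : ℝ => PP m (z + σ • a)) 0 +
      iteratedDeriv 2 (fun σ : ℝ => PP m (z + σ • (Complex.I * a))) 0 := by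
  rw [second_PP, second_PP]
  have hY := YY_le hm z
  have h1 := chi1_nonneg (YY m z)
  have h2 := chi1_le hY
  have h3 := chi2_nonneg hY
  have h4 := Y2_add m z a
  have h5 : 0 ≤ chi2 (YY m z) * (Y1 m z a * Y1 m z a + Y1 m z (Complex.I * a) *
      Y1 m z (Complex.I * a)) :=
    mul_nonneg h3 (add_nonneg (mul_self_nonneg _) (mul_self_nonneg _))
  have h6 : -‖a‖ ^ 2 ≤ chi1 (YY m z) * (Y2 m z a + Y2 m z (Complex.I * a)) := by
    nlinarith [sq_nonneg ‖a‖]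
  linarith

end Pool.Agent.U500.Cone
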