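import Mathlib
import Pool.Agent.U500.Cone.Prof
import Pool.Agent.U500.Cone.Gen

set_option autoImplicit false

/-!
# The function `u`: a sum of rescaled profiles with disjoint supports which accumulate at `1`
-/

open Metric Set Filter Topology
open scoped ContDiff InnerProductSpace

namespace Pool.Agent.U500.Cone

noncomputable def bet (k : ℕ) : ℝ := (1 / 10000) ^ (k + 1)

lemma bet_pos (k : ℕ) : 0 < bet k := by unfold bet; positivity

lemma bet_le (k : ℕ) : bet k ≤ 1 / 10000 := by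
  unfold bet
  calc (1 / 10000 : ℝ) ^ (k + 1) ≤ (1 / 10000) ^ 1 :=
        pow_le_pow_of_le_one (by norm_num) (by norm_num) (by omega)
    _ = _ := pow_one _

lemma bet_lt {j k : ℕ} (h : j < k) : bet k ≤ bet j / 10000 := by
  unfold bet
  calc (1 / 10000 : ℝ) ^ (k + 1) ≤ (1 / 10000) ^ (j + 1 + 1) :=
        pow_le_pow_of_le_one (by norm_num) (by norm_num) (by omega)
    _ = _ := by rw [pow_succ]; ring

noncomputable def bb (k : ℕ) : ℝ := √(1 - bet k)

lemma bb_sq (k : ℕ) : bb k ^ 2 = 1 - bet k := by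
  unfold bb
  rw [Real.sq_sqrt]
  have := bet_le k
  linarith

lemma bb_nonneg (k : ℕ) : 0 ≤ bb k := Real.sqrt_nonneg _

lemma bb_lt (k : ℕ) : bb k < 1 := by
  have := bb_sq k
  have := bet_pos k
  have := bb_nonneg k
  nlinarith

lemma one_sub_bb (k : ℕ) : 1 - bb k ≤ bet k := by
  have h1 := bb_sq k
  have h2 := bb_lt k
  have h3 := bb_nonneg k
  nlinarith

/-- points near `bb k` -/
lemma near_b {z : ℂ} {k : ℕ} (hz : ‖z - bb k‖ < bet k / 50) :
    0.95 * bet k ≤ 1 - ‖z‖ ^ 2 ∧ 1 - ‖z‖ ^ 2 ≤ 1.045 * bet k := by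
  have hb := bb_sq k
  have hb0 := bb_nonneg k
  have hb1 := bb_lt k
  have hβ := bet_pos k
  have hβ1 := bet_le k
  have h1 : |‖z‖ - bb k| ≤ bet k / 50 := by
    have := abs_norm_sub_norm_le z (bb k : ℂ)
    rw [Complex.norm_real, Real.norm_of_nonneg hb0] at this
    linarith
  obtain ⟨h2, h3⟩ := abs_le.1 h1
  have h4 := norm_nonneg z
  constructor <;> nlinarith

lemma near_unique {z : ℂ} {j k : ℕ} (hj : ‖z - bb j‖ < bet j / 50)
    (hk : ‖z - bb k‖ < bet k / 50) : j = k := by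
  obtain ⟨a1, a2⟩ := near_b hj
  obtain ⟨b1, b2⟩ := near_b hk
  have hβj := bet_pos j
  have hβk := bet_pos k
  rcases lt_trichotomy j k with h | h | h
  · have := bet_lt h
    nlinarith
  · exact h
  · have := bet_lt h
    nlinarith

/-- the `k`-th term -/
noncomputable def U (s : ℕ → ℝ) (k : ℕ) (z : ℂ) : ℝ :=
  s k ^ 2 * PP (k + 1) ((z - bb k) / ((s k * bet k : ℝ) : ℂ))

/-- the conditions on the sequence `s` -/
structure Good (η : ℝ) (s : ℕ → ℝ) : Prop where
  pos : ∀ k, 0 < s k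
  le : ∀ k, s k ≤ 1 / 1000 * (1 / 2) ^ (k + 1)
  val : ∀ k z, U s k z ≤ η * (1 / 2) ^ (k + 1)
  der : ∀ k z, ‖fderiv ℝ (U s k) z‖ ≤ η * (1 / 2) ^ (k + 1)

lemma contDiff_U (s : ℕ → ℝ) (k : ℕ) : ContDiff ℝ ∞ (U s k) := by
  unfold U
  apply contDiff_const.mul
  apply (contDiff_PP (k + 1)).comp
  exact (contDiff_id.sub contDiff_const).div_const _

lemma U_nonneg (s : ℕ → ℝ) (k : ℕ) (z : ℂ) : 0 ≤ U s k z :=
  mul_nonneg (sq_nonneg _) (PP_nonneg _ _)

lemma U_zero {s : ℕ → ℝ} {k : ℕ} (hs : 0 < s k) (hs1 : s k ≤ 1 / 1000) {z : ℂ}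
    (hz : bet k / 100 ≤ ‖z - bb k‖) : U s k z = 0 := by
  unfold U
  rw [PP_far (Nat.succ_pos k), mul_zero]
  have hβ := bet_pos k
  have hsb : 0 < s k * bet k := by positivity
  rw [norm_div, Complex.norm_real, Real.norm_of_nonneg hsb.le, le_div_iff₀ hsb]
  nlinarith

variable {η : ℝ} {s : ℕ → ℝ}

lemma Good.le' (h : Good η s) (k : ℕ) : s k ≤ 1 / 1000 := by
  refine (h.le k).trans ?_
  have : (1 / 2 : ℝ) ^ (k + 1) ≤ 1 := pow_le_one₀ (by norm_num) (by norm_num)
  linarith

lemma Good.zero (h : Good η s) {k : ℕ} {z : ℂ} (hz : bet k / 100 ≤ ‖z - bb k‖) : U s k z = 0 :=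
  U_zero (h.pos k) (h.le' k) hz

/-- existence of good sequences -/
lemma exists_good (η : ℝ) (hη : 0 < η) : ∃ s, Good η s := by
  have hM : ∀ k : ℕ, ∃ M : ℝ, 1 ≤ M ∧ ∀ x, ‖fderiv ℝ (PP (k + 1)) x‖ ≤ M := by
    intro k
    have h1 : Continuous (fderiv ℝ (PP (k + 1))) :=
      (contDiff_PP (k + 1)).continuous_fderiv (by simp)
    obtain ⟨C, hC⟩ := h1.bounded_above_of_compact_support
      ((PP_compact (Nat.succ_pos k)).fderiv ℝ)
    exact ⟨max C 1, le_max_right _ _, fun x => (hC x).trans (le_max_left _ _)⟩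
  choose M hM1 hM using hM
  set η' := min η 1 with hη'
  have hη'0 : 0 < η' := lt_min hη one_pos
  refine ⟨fun k => 1 / 1000 * η' * bet k / M k * (1 / 2) ^ (k + 1), ?_, ?_, ?_, ?_⟩
  · intro k
    have := bet_pos k
    have := hM1 k
    positivity
  · intro k
    have h1 := bet_pos k
    have h2 := bet_le k
    have h3 := hM1 k
    have h4 : η' * bet k / M k ≤ 1 := by
      rw [div_le_one (by linarith)]
      have : η' ≤ 1 := min_le_right _ _
      nlinarith
    calc 1 / 1000 * η' * bet k / M k * (1 / 2) ^ (k + 1)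
        = 1 / 1000 * (η' * bet k / M k) * (1 / 2) ^ (k + 1) := by ring
      _ ≤ 1 / 1000 * 1 * (1 / 2) ^ (k + 1) := by gcongr
      _ = _ := by ring
  · intro k z
    have h1 := bet_pos k
    have h2 := bet_le k
    have h3 := hM1 k
    unfold U
    set q : ℝ := (1 / 2) ^ (k + 1) with hq
    have hq0 : 0 < q := by positivity
    have hq1 : q ≤ 1 := pow_le_one₀ (by norm_num) (by norm_num)
    have h4 : 1 / 1000 * η' * bet k / M k * q ≤ 1 / 1000 * η' * q := by
      have : bet k / M k ≤ 1 := by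
        rw [div_le_one (by linarith)]; linarith
      calc 1 / 1000 * η' * bet k / M k * q = 1 / 1000 * η' * (bet k / M k) * q := by ring
        _ ≤ 1 / 1000 * η' * 1 * q := by gcongr
        _ = _ := by ring
    have h5 : 0 ≤ 1 / 1000 * η' * bet k / M k * q := by positivity
    have h6 : η' ≤ 1 := min_le_right _ _
    have h7 : η' ≤ η := min_le_left _ _
    have h8 : (1 / 1000 * η' * bet k / M k * q) ^ 2 ≤ 1 / 1000 * η * q := by
      calc (1 / 1000 * η' * bet k / M k * q) ^ 2 ≤ (1 / 1000 * η' * q) ^ 2 := by gcongr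
        _ = (1 / 1000 * η' * q) * (1 / 1000 * η' * q) := by ring
        _ ≤ (1 / 1000 * η' * q) * 1 := by
            gcongr
            have : η' * q ≤ 1 := by nlinarith
            linarith
        _ ≤ _ := by rw [mul_one]; gcongr
    calc (1 / 1000 * η' * bet k / M k * q) ^ 2 * _ ≤ (1 / 1000 * η * q) * 6.8 :=
          mul_le_mul h8 (PP_le (Nat.succ_pos k) _) (PP_nonneg _ _) (by positivity)
      _ ≤ η * q := by nlinarith [mul_pos hη hq0]
  · intro k z
    have h1 := bet_pos k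
    have h2 := bet_le k
    have h3 := hM1 k
    set q : ℝ := (1 / 2) ^ (k + 1) with hq
    have hq0 : 0 < q := by positivity
    set σ : ℝ := 1 / 1000 * η' * bet k / M k * q with hσ
    have hσ0 : 0 < σ := by positivity
    set r : ℝ := σ * bet k with hr
    have hr0 : 0 < r := by positivity
    have e1 : U (fun k => 1 / 1000 * η' * bet k / M k * (1 / 2) ^ (k + 1)) k =
        fun z : ℂ => σ ^ 2 * PP (k + 1) ((z - bb k) / ((r : ℝ) : ℂ)) := rfl
    rw [e1]
    have hg : HasFDerivAt (fun z : ℂ => (z - bb k) / ((r : ℝ) : ℂ))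
        (r⁻¹ • ContinuousLinearMap.id ℝ ℂ) z := by
      have h4 : (fun z : ℂ => (z - bb k) / ((r : ℝ) : ℂ)) = fun z : ℂ => r⁻¹ • (z - bb k) := by
        funext z
        rw [Complex.real_smul, Complex.ofReal_inv, div_eq_inv_mul]
      rw [h4]
      exact ((hasFDerivAt_id z).sub_const (bb k : ℂ)).const_smul r⁻¹
    have hP : HasFDerivAt (PP (k + 1)) (fderiv ℝ (PP (k + 1)) ((z - bb k) / ((r : ℝ) : ℂ)))
        ((z - bb k) / ((r : ℝ) : ℂ)) :=
      ((contDiff_PP (k + 1)).differentiable (by simp) _).hasFDerivAt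
    have h5 := ((hP.comp z hg).const_mul (σ ^ 2)).fderiv
    rw [show (fun z : ℂ => σ ^ 2 * PP (k + 1) ((z - bb k) / ((r : ℝ) : ℂ))) =
      fun z : ℂ => σ ^ 2 * (PP (k + 1) ∘ fun z : ℂ => (z - bb k) / ((r : ℝ) : ℂ)) z from rfl, h5]
    rw [norm_smul, Real.norm_of_nonneg (sq_nonneg σ)]
    have h6 : ‖(fderiv ℝ (PP (k + 1)) ((z - bb k) / ((r : ℝ) : ℂ))).comp
        (r⁻¹ • ContinuousLinearMap.id ℝ ℂ)‖ ≤ M k * r⁻¹ := by
      refine (ContinuousLinearMap.opNorm_comp_le _ _).trans ?_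
      gcongr
      · exact hM k _
      · rw [norm_smul, norm_inv, Real.norm_of_nonneg hr0.le, ContinuousLinearMap.norm_id, mul_one]
    calc σ ^ 2 * _ ≤ σ ^ 2 * (M k * r⁻¹) := by gcongr
      _ = 1 / 1000 * η' * q := by
          rw [hr, hσ]
          field_simp
      _ ≤ η * q := by
          have : η' ≤ η := min_le_left _ _
          nlinarith

/-- the function `u` -/
noncomputable def uS (s : ℕ → ℝ) (z : ℂ) : ℝ := ∑' k, U s k z

lemma sum_geo (η : ℝ) : HasSum (fun k : ℕ => η * (1 / 2 : ℝ) ^ (k + 1)) η := by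
  have h1 := (hasSum_geometric_two).mul_left (η / 2)
  have h2 : (fun k : ℕ => η * (1 / 2 : ℝ) ^ (k + 1)) = fun k => η / 2 * (1 / 2) ^ k := by
    funext k; rw [pow_succ]; ring
  rw [h2]
  rwa [show η / 2 * 2 = η by ring] at h1

lemma Good.summable (h : Good η s) (z : ℂ) : Summable fun k => U s k z :=
  Summable.of_nonneg_of_le (fun k => U_nonneg s k z) (fun k => h.val k z) (sum_geo η).summable

lemma Good.u_nonneg (_h : Good η s) (z : ℂ) : 0 ≤ uS s z := tsum_nonneg fun k => U_nonneg s k z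

lemma Good.u_le (h : Good η s) (z : ℂ) : uS s z ≤ η :=
  (h.summable z).tsum_le_of_sum_le fun F => by
    calc ∑ k ∈ F, U s k z ≤ ∑ k ∈ F, η * (1 / 2 : ℝ) ^ (k + 1) :=
          Finset.sum_le_sum fun k _ => h.val k z
      _ ≤ η := by
          have h0 : 0 ≤ η := by
            have h1 := h.val 0 0
            have h2 := U_nonneg s 0 0
            have h3 : 0 ≤ η * (1 / 2 : ℝ) ^ (0 + 1) := h2.trans h1
            linarith
          exact sum_le_hasSum F (fun k _ => by positivity) (sum_geo η)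

lemma Good.U_le_u (h : Good η s) (k : ℕ) (z : ℂ) : U s k z ≤ uS s z :=
  (h.summable z).le_tsum k fun j _ => U_nonneg s j z

lemma Good.u_eq (h : Good η s) {k : ℕ} {z : ℂ} (hz : ‖z - bb k‖ < bet k / 50) :
    uS s z = U s k z := by
  unfold uS
  apply tsum_eq_single k
  intro j hj
  apply h.zero
  by_contra hcon
  push Not at hcon
  have := bet_pos j
  exact hj (near_unique (hcon.trans (by linarith)) hz)

lemma Good.contDiff (h : Good η s) : ContDiff ℝ 1 (uS s) := by
  apply contDiff_tsum (v := fun _ k => η * (1 / 2 : ℝ) ^ (k + 1))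
  · intro k
    exact (contDiff_U s k).of_le (by exact_mod_cast le_top)
  · intro k _
    exact (sum_geo η).summable
  · intro k i x hk
    have hk' : k ≤ 1 := by exact_mod_cast hk
    interval_cases k
    · rw [norm_iteratedFDeriv_zero, Real.norm_of_nonneg (U_nonneg s i x)]
      exact h.val i x
    · rw [norm_iteratedFDeriv_one]
      exact h.der i x

lemma Good.fderiv_le (h : Good η s) (z : ℂ) : ‖fderiv ℝ (uS s) z‖ ≤ η := by
  have h1 := fderiv_tsum (𝕜 := ℝ) (f := fun k => U s k) (sum_geo η).summable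
    (fun k => (contDiff_U s k).differentiable (by simp)) (fun k x => h.der k x)
    (x₀ := 0) (h.summable 0)
  have h2 : fderiv ℝ (uS s) z = ∑' k, fderiv ℝ (U s k) z := congrFun h1 z
  rw [h2]
  exact tsum_of_norm_bounded (sum_geo η) fun k => h.der k z

/-- near a point `z ≠ 1`, `u` is one of the terms, or `0` -/
lemma Good.local (h : Good η s) {z : ℂ} (hz : z ≠ 1) :
    (∃ k, ‖z - bb k‖ < bet k / 50 ∧ uS s =ᶠ[𝓝 z] U s k) ∨ uS s =ᶠ[𝓝 z] fun _ => 0 := by
  by_cases hk : ∃ k, ‖z - bb k‖ < bet k / 50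
  · obtain ⟨k, hk⟩ := hk
    left
    refine ⟨k, hk, ?_⟩
    have hopen : IsOpen {w : ℂ | ‖w - bb k‖ < bet k / 50} :=
      isOpen_lt (by fun_prop) continuous_const
    filter_upwards [hopen.mem_nhds hk] with w hw
    exact h.u_eq hw
  · push Not at hk
    right
    have hc : 0 < ‖1 - z‖ := norm_pos_iff.2 (sub_ne_zero.2 (Ne.symm hz))
    filter_upwards [ball_mem_nhds z (by positivity : 0 < ‖1 - z‖ / 400)] with w hw
    rw [mem_ball, dist_eq_norm] at hw
    unfold uS
    have hall : ∀ k, U s k w = 0 := by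
      intro k
      apply h.zero
      have hβ := bet_pos k
      by_cases hb : ‖1 - z‖ / 4 ≤ bet k
      · have h1 := hk k
        have h2 : ‖z - bb k‖ ≤ ‖w - z‖ + ‖w - bb k‖ := by
          calc ‖z - bb k‖ = ‖-(w - z) + (w - bb k)‖ := by congr 1; ring
            _ ≤ ‖-(w - z)‖ + ‖w - bb k‖ := norm_add_le _ _
            _ = _ := by rw [norm_neg]
        linarith
      · push Not at hb
        have h2 : ‖1 - z‖ ≤ ‖(1 : ℂ) - bb k‖ + ‖w - bb k‖ + ‖w - z‖ := by
          calc ‖1 - z‖ = ‖((1 : ℂ) - bb k) + -(w - bb k) + (w - z)‖ := by congr 1; ring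
            _ ≤ ‖((1 : ℂ) - bb k)‖ + ‖-(w - bb k)‖ + ‖w - z‖ := norm_add₃_le
            _ = _ := by rw [norm_neg]
        have h3 : ‖(1 : ℂ) - bb k‖ = 1 - bb k := by
          rw [← Complex.ofReal_one, ← Complex.ofReal_sub, Complex.norm_real,
            Real.norm_of_nonneg (by linarith [bb_lt k])]
        have h4 := one_sub_bb k
        rw [h3] at h2
        linarith
    simp [hall]

end Pool.Agent.U500.Cone
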