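import Mathlib
import Pool.Agent.U500.Cone.Geo
import Pool.Agent.HopfPinch.AnN
import Pool.Agent.U500.Inst.Fin

set_option autoImplicit false

/-!
# The corona data
-/

open Metric Set Filter Topology
open scoped ContDiff InnerProductSpace

namespace Pool.Agent.U500.Cone

open Pool.Agent.U500.Inst

variable {n : ℕ} {η : ℝ} {s : ℕ → ℝ}

/-! ### functions on the ball of `ℂ²` -/

noncomputable def AA (t : ℝ) (w : ℂ) : ℂ := 2 * t * w / (1 - √(1 - 2 * t) * w)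

noncomputable def BB (t : ℝ) (z w : ℂ) : ℂ := √(2 * t) * (z / (1 - √(1 - 2 * t) * w) - 1)

lemma w0_facts {t : ℝ} (ht : 0 < t) (ht1 : t ≤ 1 / 400) :
    0 < √(1 - 2 * t) ∧ √(1 - 2 * t) ^ 2 = 1 - 2 * t ∧ √(1 - 2 * t) < 1 ∧
      1 - √(1 - 2 * t) ≤ 2 * t := by
  have h1 : 0 < √(1 - 2 * t) := by apply Real.sqrt_pos.2; linarith
  have h2 : √(1 - 2 * t) ^ 2 = 1 - 2 * t := Real.sq_sqrt (by linarith)
  have h3 : √(1 - 2 * t) < 1 := by nlinarith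
  exact ⟨h1, h2, h3, by nlinarith⟩

lemma den_ge {w₀ : ℝ} (h0 : 0 ≤ w₀) (w : ℂ) : 1 - w₀ * ‖w‖ ≤ ‖1 - (w₀ : ℂ) * w‖ := by
  have h1 := norm_sub_norm_le (1 : ℂ) ((w₀ : ℂ) * w)
  rwa [norm_one, norm_mul, Complex.norm_real, Real.norm_of_nonneg h0] at h1

lemma AA_le {t : ℝ} (ht : 0 < t) (ht1 : t ≤ 1 / 400) {w : ℂ} (hw : ‖w‖ < 1) : ‖AA t w‖ ≤ 2 := by
  obtain ⟨h1, h2, h3, _⟩ := w0_facts ht ht1
  have h4 := den_ge h1.le w
  have h5 : 0 < 1 - √(1 - 2 * t) * ‖w‖ := by nlinarith [norm_nonneg w]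
  unfold AA
  rw [norm_div, norm_mul, norm_mul, Complex.norm_real, Real.norm_of_nonneg ht.le,
    div_le_iff₀ (by linarith)]
  have h6 : ‖(2 : ℂ)‖ = 2 := by simp
  rw [h6]
  nlinarith [norm_nonneg w]

lemma AA_far {t : ℝ} (ht : 0 < t) (ht1 : t ≤ 1 / 400) {w : ℂ} (hw : ‖w‖ ≤ 1 / 2) :
    ‖AA t w‖ ≤ 2 * t := by
  obtain ⟨h1, h2, h3, _⟩ := w0_facts ht ht1
  have h4 := den_ge h1.le w
  have h5 : 1 / 2 ≤ 1 - √(1 - 2 * t) * ‖w‖ := by nlinarith [norm_nonneg w]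
  unfold AA
  rw [norm_div, norm_mul, norm_mul, Complex.norm_real, Real.norm_of_nonneg ht.le,
    div_le_iff₀ (by linarith)]
  have h6 : ‖(2 : ℂ)‖ = 2 := by simp
  rw [h6]
  nlinarith [norm_nonneg w]

lemma BB_le {t : ℝ} (ht : 0 < t) (ht1 : t ≤ 1 / 400) {z w : ℂ} (hw : ‖z‖ ^ 2 + ‖w‖ ^ 2 < 1) :
    ‖BB t z w‖ ≤ 2 := by
  obtain ⟨h1, h2, h3, _⟩ := w0_facts ht ht1
  have h4 := den_ge h1.le w
  have hw1 : ‖w‖ < 1 := by nlinarith [norm_nonneg w, norm_nonneg z]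
  have h5 : 0 < 1 - √(1 - 2 * t) * ‖w‖ := by nlinarith [norm_nonneg w]
  have hs2 : √(2 * t) ^ 2 = 2 * t := Real.sq_sqrt (by linarith)
  have hs0 : 0 ≤ √(2 * t) := Real.sqrt_nonneg _
  have hs1 : √(2 * t) ≤ 1 := by nlinarith
  have h6 : √(2 * t) * ‖z‖ ≤ ‖1 - (√(1 - 2 * t) : ℂ) * w‖ := by
    refine le_trans ?_ h4
    apply le_of_sq_le_sq _ h5.le
    have h7 : (√(2 * t) * ‖z‖) ^ 2 = 2 * t * ‖z‖ ^ 2 := by rw [mul_pow, hs2]
    have h8 : (1 - √(1 - 2 * t) * ‖w‖) ^ 2 = 2 * t * (1 - ‖w‖ ^ 2) +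
        (√(1 - 2 * t) - ‖w‖) ^ 2 := by
      have : (1 - √(1 - 2 * t) * ‖w‖) ^ 2 - (√(1 - 2 * t) - ‖w‖) ^ 2 =
        (1 - √(1 - 2 * t) ^ 2) * (1 - ‖w‖ ^ 2) := by ring
      rw [h2] at this
      linarith
    rw [h7, h8]
    nlinarith [sq_nonneg (√(1 - 2 * t) - ‖w‖)]
  unfold BB
  rw [norm_mul, Complex.norm_real, Real.norm_of_nonneg hs0]
  calc √(2 * t) * ‖z / (1 - √(1 - 2 * t) * w) - 1‖
      ≤ √(2 * t) * (‖z / (1 - √(1 - 2 * t) * w)‖ + ‖(1 : ℂ)‖) := by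
        gcongr
        exact norm_sub_le _ _
    _ = √(2 * t) * ‖z‖ / ‖1 - (√(1 - 2 * t) : ℂ) * w‖ + √(2 * t) := by
        rw [norm_div, norm_one]; ring
    _ ≤ 1 + 1 := by
        gcongr
        exact div_le_one_of_le₀ h6 (norm_nonneg _)
    _ = 2 := by norm_num

lemma BB_far {t : ℝ} (ht : 0 < t) (ht1 : t ≤ 1 / 400) {z w : ℂ} (hz : ‖z‖ ≤ 1)
    (hw : ‖w‖ ≤ 1 / 2) : ‖BB t z w‖ ≤ 3 * √(2 * t) := by
  obtain ⟨h1, h2, h3, _⟩ := w0_facts ht ht1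
  have h4 := den_ge h1.le w
  have h5 : 1 / 2 ≤ 1 - √(1 - 2 * t) * ‖w‖ := by nlinarith [norm_nonneg w]
  have hs0 : 0 ≤ √(2 * t) := Real.sqrt_nonneg _
  unfold BB
  rw [norm_mul, Complex.norm_real, Real.norm_of_nonneg hs0]
  calc √(2 * t) * ‖z / (1 - √(1 - 2 * t) * w) - 1‖
      ≤ √(2 * t) * (‖z / (1 - √(1 - 2 * t) * w)‖ + ‖(1 : ℂ)‖) := by
        gcongr
        exact norm_sub_le _ _
    _ ≤ √(2 * t) * (2 + 1) := by
        gcongr
        · rw [norm_div, div_le_iff₀ (by linarith)]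
          nlinarith
        · simp
    _ = _ := by ring

/-- the main lower bound -/
lemma lower_core {t e : ℝ} (ht : 0 < t) (ht1 : t ≤ 1 / 400) {z w : ℂ} (he1 : 1 ≤ e)
    (hzw : ‖z‖ ^ 2 + e * ‖w‖ ^ 2 < 1) (he : ‖z‖ ^ 2 ≤ t / 4 → 1 + 5.2 * t ≤ e) :
    1 / 10 < ‖((√(1 - 2 * t) : ℝ) - w) / (1 - √(1 - 2 * t) * w)‖ ^ 2 +
      ‖√(2 * t) * (z / (1 - √(1 - 2 * t) * w))‖ ^ 2 := by
  obtain ⟨h0, hw0, hw1, _⟩ := w0_facts ht ht1
  have h2 := mob_id hw0 w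
  have hw2 : ‖w‖ ^ 2 < 1 := by nlinarith [sq_nonneg ‖z‖, sq_nonneg ‖w‖]
  have hw2' : ‖w‖ < 1 := by nlinarith [norm_nonneg w]
  have hden : 0 < ‖1 - ((√(1 - 2 * t) : ℝ) : ℂ) * w‖ := den_pos h0 (by nlinarith [norm_nonneg w])
  have h3 : t + (1 - ‖w‖ ^ 2) / 2 ≤ ‖1 - ((√(1 - 2 * t) : ℝ) : ℂ) * w‖ := by
    have h4 := den_ge h0.le w
    nlinarith [sq_nonneg (√(1 - 2 * t) - ‖w‖)]
  have hsq : √(2 * t) ^ 2 = 2 * t := Real.sq_sqrt (by linarith)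
  have e1 : ‖((√(1 - 2 * t) : ℝ) - w) / (1 - √(1 - 2 * t) * w)‖ ^ 2 +
      ‖√(2 * t) * (z / (1 - √(1 - 2 * t) * w))‖ ^ 2 =
      (2 * t * ‖z‖ ^ 2 + ‖((√(1 - 2 * t) : ℝ) : ℂ) - w‖ ^ 2) /
        ‖1 - ((√(1 - 2 * t) : ℝ) : ℂ) * w‖ ^ 2 := by
    rw [norm_div, norm_mul, norm_div, Complex.norm_real, Real.norm_of_nonneg (Real.sqrt_nonneg _),
      div_pow, mul_pow, hsq, div_pow]
    ring
  rw [e1]
  set X := 1 - ‖w‖ ^ 2 with hX
  set d := ‖1 - ((√(1 - 2 * t) : ℝ) : ℂ) * w‖ with hd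
  have hX0 : 0 < X := by linarith
  have h5 : (t + X / 2) ^ 2 ≤ d ^ 2 := by gcongr
  rw [lt_div_iff₀ (by positivity)]
  have h6 : 2 * t * (X - ‖z‖ ^ 2) ≤ 8 / 9 * d ^ 2 := by
    refine le_trans ?_ (mul_le_mul_of_nonneg_left h5 (by norm_num : (0 : ℝ) ≤ 8 / 9))
    by_cases hz : ‖z‖ ^ 2 ≤ t / 4
    · have h7 := he hz
      have h9 : (1 + 5.2 * t) * (1 - X) < 1 := by
        have h8 : (1 + 5.2 * t) * ‖w‖ ^ 2 ≤ e * ‖w‖ ^ 2 := by gcongr
        have : 1 - X = ‖w‖ ^ 2 := by rw [hX]; ring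
        rw [this]
        linarith [sq_nonneg ‖z‖]
      have h10 : 4 * t ≤ X := by
        by_contra hcon
        push Not at hcon
        nlinarith
      have h11 : 0 ≤ ‖z‖ ^ 2 := by positivity
      have h12 : 0 ≤ (X - t) * (X - 4 * t) := mul_nonneg (by linarith) (by linarith)
      have h13 : 0 ≤ t * ‖z‖ ^ 2 := mul_nonneg ht.le h11
      have h14 : 2 * t * (X - ‖z‖ ^ 2) = 8 / 9 * (t + X / 2) ^ 2 -
          2 / 9 * ((X - t) * (X - 4 * t)) - 2 * (t * ‖z‖ ^ 2) := by ring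
      rw [h14]
      linarith
    · push Not at hz
      have h8 : 0 ≤ (5 * t - 2 * X) ^ 2 := sq_nonneg _
      have h9 : 0 ≤ t * (‖z‖ ^ 2 - t / 4) := mul_nonneg ht.le (by linarith)
      have h10 : 2 * t * (X - ‖z‖ ^ 2) = 8 / 9 * (t + X / 2) ^ 2 -
          1 / 18 * (5 * t - 2 * X) ^ 2 - 2 * (t * (‖z‖ ^ 2 - t / 4)) := by ring
      rw [h10]
      linarith
  have h7 : 0 < d ^ 2 := by positivity
  have h8 : ‖((√(1 - 2 * t) : ℝ) : ℂ) - w‖ ^ 2 = d ^ 2 - 2 * t * X := by linarith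
  rw [h8]
  linarith

/-! ### local coordinates -/

noncomputable def zet (k : ℕ) (x : Fin (n + 2) → ℂ) : ℂ := (x 0 - bb k) / (1 - bb k * x 0)

noncomputable def ome (k : ℕ) (x : Fin (n + 2) → ℂ) : ℂ := √(bet k) * x 1 / (1 - bb k * x 0)

lemma x01 {x : Fin (n + 2) → ℂ} (hx : nsq x < 1) : ‖x 0‖ ^ 2 + ‖x 1‖ ^ 2 < 1 := by
  rw [nsq_eq] at hx
  have := sq1_le x
  linarith

lemma cpos {k : ℕ} {x : Fin (n + 2) → ℂ} (hx : nsq x < 1) : 0 < ‖1 - (bb k : ℂ) * x 0‖ := by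
  have h1 := x01 hx
  have h2 : ‖x 0‖ < 1 := by nlinarith [norm_nonneg (x 0), sq_nonneg ‖x 1‖]
  have h3 := den_ge (bb_nonneg k) (x 0)
  have h4 := bb_lt k
  have h5 := bb_nonneg k
  nlinarith [norm_nonneg (x 0)]

lemma cid (k : ℕ) (z : ℂ) :
    ‖1 - (bb k : ℂ) * z‖ ^ 2 - ‖z - bb k‖ ^ 2 = bet k * (1 - ‖z‖ ^ 2) := by
  have h1 := mob_id (t := bet k / 2) (w₀ := bb k) (by rw [bb_sq]; ring) z
  rw [norm_sub_rev (bb k : ℂ) z] at h1
  linarith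

lemma zet_sq {k : ℕ} {x : Fin (n + 2) → ℂ} (hx : nsq x < 1) :
    1 - ‖zet k x‖ ^ 2 = bet k * (1 - ‖x 0‖ ^ 2) / ‖1 - (bb k : ℂ) * x 0‖ ^ 2 := by
  have hc := cpos (k := k) hx
  unfold zet
  rw [norm_div, div_pow, ← cid k (x 0), sub_div, div_self (by positivity)]

lemma ome_sq (k : ℕ) (x : Fin (n + 2) → ℂ) :
    ‖ome k x‖ ^ 2 = bet k * ‖x 1‖ ^ 2 / ‖1 - (bb k : ℂ) * x 0‖ ^ 2 := by
  unfold ome
  rw [norm_div, norm_mul, Complex.norm_real, Real.norm_of_nonneg (Real.sqrt_nonneg _), div_pow,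
    mul_pow, Real.sq_sqrt (bet_pos k).le]

lemma loc_ball {k : ℕ} {x : Fin (n + 2) → ℂ} (hx : nsq x < 1) :
    ‖zet k x‖ ^ 2 + ‖ome k x‖ ^ 2 < 1 := by
  have hc := cpos (k := k) hx
  have h1 := zet_sq (k := k) hx
  have h2 := x01 hx
  have h3 : ‖ome k x‖ ^ 2 < 1 - ‖zet k x‖ ^ 2 := by
    rw [h1, ome_sq]
    have := bet_pos k
    gcongr
    linarith
  linarith

/-- far from the `k`-th point -/
def Far (k : ℕ) (x : Fin (n + 2) → ℂ) : Prop :=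
  14 * bet k ≤ 1 - ‖x 0‖ ^ 2 ∨ 14 * (1 - ‖x 0‖ ^ 2) ≤ bet k

lemma ome_far {k : ℕ} {x : Fin (n + 2) → ℂ} (hx : nsq x < 1) (hf : Far k x) :
    ‖ome k x‖ ≤ 1 / 2 := by
  have hc := cpos (k := k) hx
  have h1 := zet_sq (k := k) hx
  have h2 := loc_ball (k := k) hx
  have hβ := bet_pos k
  have h3 := x01 hx
  set y := 1 - ‖x 0‖ ^ 2 with hy
  have hy0 : 0 < y := by nlinarith [sq_nonneg ‖x 1‖]
  have h4 : (bet k + y) / 2 ≤ ‖1 - (bb k : ℂ) * x 0‖ := by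
    have h5 := den_ge (bb_nonneg k) (x 0)
    have h6 := bb_sq k
    nlinarith [sq_nonneg (bb k - ‖x 0‖)]
  have h7 : 4 * (bet k * y) ≤ ‖1 - (bb k : ℂ) * x 0‖ ^ 2 := by
    have h8 : ((bet k + y) / 2) ^ 2 ≤ ‖1 - (bb k : ℂ) * x 0‖ ^ 2 := by gcongr
    refine le_trans ?_ h8
    rcases hf with hf | hf
    · nlinarith
    · nlinarith
  have h9 : 1 - ‖zet k x‖ ^ 2 ≤ 1 / 4 := by
    rw [h1, div_le_iff₀ (by positivity)]
    linarith
  have h10 : ‖ome k x‖ ^ 2 ≤ (1 / 2) ^ 2 := by linarith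
  exact le_of_sq_le_sq h10 (by norm_num)

lemma far_of_ne {j k : ℕ} {x : Fin (n + 2) → ℂ} (h : ¬ Far k x) (hjk : j ≠ k) : Far j x := by
  unfold Far at *
  push Not at h
  obtain ⟨h1, h2⟩ := h
  have hβj := bet_pos j
  have hβk := bet_pos k
  rcases lt_or_gt_of_ne hjk with hl | hl
  · have := bet_lt hl
    right
    linarith
  · have := bet_lt hl
    left
    linarith

lemma exists_k0 (x : Fin (n + 2) → ℂ) : ∃ k₀, ∀ k, k ≠ k₀ → Far k x := by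
  by_cases h : ∃ k, ¬ Far k x
  · obtain ⟨k, hk⟩ := h
    exact ⟨k, fun j hj => far_of_ne hk hj⟩
  · push Not at h
    exact ⟨0, fun k _ => h k⟩

/-! ### the data -/

noncomputable def Ak (s : ℕ → ℝ) (k : ℕ) (x : Fin (n + 2) → ℂ) : ℂ := AA (s k ^ 2) (ome k x)

noncomputable def Bk (s : ℕ → ℝ) (k : ℕ) (x : Fin (n + 2) → ℂ) : ℂ :=
  BB (s k ^ 2) (zet k x) (ome k x)

/-- the two generators -/
noncomputable def FF (s : ℕ → ℝ) (j : Fin 2) (x : Fin (n + 2) → ℂ) : ℂ :=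
  if j = 0 then 1 - ∑' k, Ak s k x else ∑' k, Bk s k x

lemma Good.t_pos (h : Good η s) (k : ℕ) : 0 < s k ^ 2 := pow_pos (h.pos k) 2

lemma Good.t_le (h : Good η s) (k : ℕ) : s k ^ 2 ≤ 1 / 400 := by
  have h1 := h.le' k
  have h2 := h.pos k
  nlinarith

/-- the summable bound -/
noncomputable def bd (k : ℕ) : ℝ := 1 / 100 * (1 / 2) ^ (k + 1)

lemma bd_nonneg (k : ℕ) : 0 ≤ bd k := by unfold bd; positivity

lemma bd_sum : HasSum bd (1 / 100) := sum_geo (1 / 100)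

lemma Good.sqrt_le (h : Good η s) (k : ℕ) : 3 * √(2 * s k ^ 2) ≤ bd k := by
  have h1 := h.le k
  have h2 := h.pos k
  have h3 : √(2 * s k ^ 2) ≤ 3 / 2 * s k := by
    apply Real.sqrt_le_iff.2
    constructor
    · positivity
    · nlinarith
  unfold bd
  have h4 : (0 : ℝ) < (1 / 2) ^ (k + 1) := by positivity
  linarith

lemma Good.sq_le (h : Good η s) (k : ℕ) : 2 * s k ^ 2 ≤ bd k := by
  have h1 := h.le k
  have h2 := h.pos k
  have h3 := h.le' k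
  unfold bd
  have h4 : (0 : ℝ) < (1 / 2) ^ (k + 1) := by positivity
  nlinarith

lemma Good.Ak_far (h : Good η s) {k : ℕ} {x : Fin (n + 2) → ℂ} (hx : nsq x < 1)
    (hf : Far k x) : ‖Ak s k x‖ ≤ bd k :=
  (AA_far (h.t_pos k) (h.t_le k) (ome_far hx hf)).trans (h.sq_le k)

lemma ome_lt {k : ℕ} {x : Fin (n + 2) → ℂ} (hx : nsq x < 1) : ‖ome k x‖ < 1 := by
  have := loc_ball (k := k) hx
  nlinarith [norm_nonneg (ome k x), sq_nonneg ‖zet k x‖]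

lemma zet_lt {k : ℕ} {x : Fin (n + 2) → ℂ} (hx : nsq x < 1) : ‖zet k x‖ < 1 := by
  have := loc_ball (k := k) hx
  nlinarith [norm_nonneg (zet k x), sq_nonneg ‖ome k x‖]

lemma Good.Ak_le (h : Good η s) {k : ℕ} {x : Fin (n + 2) → ℂ} (hx : nsq x < 1) :
    ‖Ak s k x‖ ≤ 2 := AA_le (h.t_pos k) (h.t_le k) (ome_lt hx)

lemma Good.Bk_far (h : Good η s) {k : ℕ} {x : Fin (n + 2) → ℂ} (hx : nsq x < 1)
    (hf : Far k x) : ‖Bk s k x‖ ≤ bd k :=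
  (BB_far (h.t_pos k) (h.t_le k) (zet_lt hx).le (ome_far hx hf)).trans (h.sqrt_le k)

lemma Good.Bk_le (h : Good η s) {k : ℕ} {x : Fin (n + 2) → ℂ} (hx : nsq x < 1) :
    ‖Bk s k x‖ ≤ 2 := BB_le (h.t_pos k) (h.t_le k) (loc_ball hx)

lemma summable_bet : Summable bet := by
  unfold bet
  have h1 : Summable fun k : ℕ => (1 / 10000 : ℝ) ^ k :=
    summable_geometric_of_lt_one (by norm_num) (by norm_num)
  exact (summable_nat_add_iff 1).2 h1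

/-- uniform bound on compact sets -/
lemma unif_bound {G : ℕ → (Fin (n + 2) → ℂ) → ℂ} (h2 : ∀ k x, nsq x < 1 → ‖G k x‖ ≤ 2)
    (hf : ∀ k x, nsq x < 1 → Far k x → ‖G k x‖ ≤ bd k) {c : ℝ} (hc : 0 < c) (k : ℕ)
    (x : Fin (n + 2) → ℂ) (hx : nsq x < 1) (hxc : c ≤ 1 - ‖x 0‖ ^ 2) :
    ‖G k x‖ ≤ bd k + 28 / c * bet k := by
  have hβ := bet_pos k
  have hb := bd_nonneg k
  by_cases h : 14 * bet k ≤ 1 - ‖x 0‖ ^ 2
  · have h3 := hf k x hx (Or.inl h)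
    have : 0 ≤ 28 / c * bet k := by positivity
    linarith
  · push Not at h
    have h3 : 2 ≤ 28 / c * bet k := by
      rw [div_mul_eq_mul_div, le_div_iff₀ hc]
      linarith
    have h4 := h2 k x hx
    linarith

lemma isOpen_ball' : IsOpen {x : Fin (n + 2) → ℂ | nsq x < 1} := by
  have : Continuous (fun x : Fin (n + 2) → ℂ => nsq x) := by
    unfold nsq
    fun_prop
  exact isOpen_lt this continuous_const

/-- the series are holomorphic -/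
lemma series_diff {G : ℕ → (Fin (n + 2) → ℂ) → ℂ} (h2 : ∀ k x, nsq x < 1 → ‖G k x‖ ≤ 2)
    (hf : ∀ k x, nsq x < 1 → Far k x → ‖G k x‖ ≤ bd k)
    (hd : ∀ k, DifferentiableOn ℂ (G k) {x | nsq x < 1}) :
    DifferentiableOn ℂ (fun x => ∑' k, G k x) {x | nsq x < 1} := by
  intro x hx
  have hx' : nsq x < 1 := hx
  have h3 := x01 hx'
  set c := (1 - ‖x 0‖ ^ 2) / 2 with hc
  have hc0 : 0 < c := by
    have := sq_nonneg ‖x 1‖
    linarith
  set O : Set (Fin (n + 2) → ℂ) := {y | nsq y < 1} ∩ {y | c < 1 - ‖y 0‖ ^ 2} with hO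
  have hOo : IsOpen O := by
    apply isOpen_ball'.inter
    apply isOpen_lt continuous_const
    have : Continuous (fun x : Fin (n + 2) → ℂ => x 0) := continuous_apply 0
    fun_prop
  have hxO : x ∈ O := ⟨hx', by change c < 1 - ‖x 0‖ ^ 2; linarith⟩
  have key := Pool.Agent.HP.nof_differentiableOn_tsum (f := G)
    (u := fun k => bd k + 28 / c * bet k) (bd_sum.summable.add (summable_bet.mul_left _)) hOo
    (fun k => (hd k).mono inter_subset_left)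
    (fun k y hy => unif_bound h2 hf hc0 k y hy.1 (le_of_lt hy.2))
  exact (key.differentiableAt (hOo.mem_nhds hxO)).differentiableWithinAt

lemma diff_zet (k : ℕ) : DifferentiableOn ℂ (zet (n := n) k) {x | nsq x < 1} := by
  intro x hx
  have hc : 1 - (bb k : ℂ) * x 0 ≠ 0 := norm_pos_iff.1 (cpos hx)
  have h1 : DifferentiableAt ℂ (fun x : Fin (n + 2) → ℂ => 1 - (bb k : ℂ) * x 0) x := by fun_prop
  apply DifferentiableAt.differentiableWithinAt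
  unfold zet
  simp only [div_eq_mul_inv]
  exact DifferentiableAt.fun_mul (by fun_prop) (h1.inv hc)

lemma diff_ome (k : ℕ) : DifferentiableOn ℂ (ome (n := n) k) {x | nsq x < 1} := by
  intro x hx
  have hc : 1 - (bb k : ℂ) * x 0 ≠ 0 := norm_pos_iff.1 (cpos hx)
  have h1 : DifferentiableAt ℂ (fun x : Fin (n + 2) → ℂ => 1 - (bb k : ℂ) * x 0) x := by fun_prop
  apply DifferentiableAt.differentiableWithinAt
  unfold ome
  simp only [div_eq_mul_inv]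
  exact DifferentiableAt.fun_mul (by fun_prop) (h1.inv hc)

lemma den_ne {t : ℝ} (ht : 0 < t) (ht1 : t ≤ 1 / 400) {w : ℂ} (hw : ‖w‖ < 1) :
    1 - ((√(1 - 2 * t) : ℝ) : ℂ) * w ≠ 0 := by
  obtain ⟨h1, h2, h3, _⟩ := w0_facts ht ht1
  have h4 := den_ge h1.le w
  have h5 : 0 < 1 - √(1 - 2 * t) * ‖w‖ := by nlinarith [norm_nonneg w]
  exact norm_pos_iff.1 (lt_of_lt_of_le h5 h4)

lemma Good.diff_Ak (h : Good η s) (k : ℕ) : DifferentiableOn ℂ (Ak (n := n) s k) {x | nsq x < 1} := by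
  intro x hx
  have h1 := (diff_ome (n := n) k).differentiableAt (isOpen_ball'.mem_nhds hx)
  have h2 := den_ne (h.t_pos k) (h.t_le k) (ome_lt (k := k) hx)
  have h3 : DifferentiableAt ℂ (fun x : Fin (n + 2) → ℂ =>
      1 - ((√(1 - 2 * s k ^ 2) : ℝ) : ℂ) * ome k x) x := (h1.const_mul _).const_sub 1
  apply DifferentiableAt.differentiableWithinAt
  unfold Ak AA
  simp only [div_eq_mul_inv]
  exact DifferentiableAt.fun_mul (h1.const_mul _) (h3.inv h2)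

lemma Good.diff_Bk (h : Good η s) (k : ℕ) : DifferentiableOn ℂ (Bk (n := n) s k) {x | nsq x < 1} := by
  intro x hx
  have h1 := (diff_ome (n := n) k).differentiableAt (isOpen_ball'.mem_nhds hx)
  have h0 := (diff_zet (n := n) k).differentiableAt (isOpen_ball'.mem_nhds hx)
  have h2 := den_ne (h.t_pos k) (h.t_le k) (ome_lt (k := k) hx)
  have h3 : DifferentiableAt ℂ (fun x : Fin (n + 2) → ℂ =>
      1 - ((√(1 - 2 * s k ^ 2) : ℝ) : ℂ) * ome k x) x := (h1.const_mul _).const_sub 1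
  apply DifferentiableAt.differentiableWithinAt
  unfold Bk BB
  simp only [div_eq_mul_inv]
  exact ((DifferentiableAt.fun_mul h0 (h3.inv h2)).sub_const 1).const_mul _

lemma Good.diff_FF (h : Good η s) (j : Fin 2) :
    DifferentiableOn ℂ (FF (n := n) s j) {x | nsq x < 1} := by
  unfold FF
  by_cases hj : j = 0
  · simp only [hj, if_true]
    exact (series_diff (fun k x hx => h.Ak_le hx) (fun k x hx hf => h.Ak_far hx hf)
      h.diff_Ak).const_sub 1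
  · simp only [hj, if_false]
    exact series_diff (fun k x hx => h.Bk_le hx) (fun k x hx hf => h.Bk_far hx hf) h.diff_Bk

/-- splitting off one term -/
lemma split_off {G : ℕ → (Fin (n + 2) → ℂ) → ℂ}
    (hf : ∀ k x, nsq x < 1 → Far k x → ‖G k x‖ ≤ bd k) {x : Fin (n + 2) → ℂ} (hx : nsq x < 1)
    {k₀ : ℕ} (hk : ∀ k, k ≠ k₀ → Far k x) :
    (∑' k, G k x = G k₀ x + ∑' k, if k = k₀ then 0 else G k x) ∧
      ‖∑' k, if k = k₀ then 0 else G k x‖ ≤ 1 / 100 := by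
  have hb : ∀ k, ‖if k = k₀ then 0 else G k x‖ ≤ bd k := by
    intro k
    by_cases h : k = k₀
    · rw [if_pos h, norm_zero]; exact bd_nonneg k
    · rw [if_neg h]; exact hf k x hx (hk k h)
  have hsum : Summable fun k => G k x := by
    have h3 : Summable fun k => if k = k₀ then 0 else G k x :=
      Summable.of_norm_bounded bd_sum.summable hb
    have h4 : Summable fun k => if k = k₀ then G k x else 0 :=
      (hasSum_ite_eq k₀ (G k₀ x)).summable.congr fun k => by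
        by_cases h : k = k₀
        · simp [h]
        · simp [h]
    refine (h3.add h4).congr fun k => ?_
    by_cases h : k = k₀
    · simp [h]
    · simp [h]
  exact ⟨hsum.tsum_eq_add_tsum_ite k₀, tsum_of_norm_bounded bd_sum hb⟩

lemma Good.FF_le (h : Good η s) (j : Fin 2) {x : Fin (n + 2) → ℂ} (hx : nsq x < 1) :
    ‖FF s j x‖ ≤ 4 := by
  obtain ⟨k₀, hk⟩ := exists_k0 x
  unfold FF
  by_cases hj : j = 0
  · simp only [hj, if_true]
    obtain ⟨h1, h2⟩ := split_off (fun k x hx hf => h.Ak_far hx hf) hx hk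
    rw [h1]
    have h3 := h.Ak_le (k := k₀) hx
    calc _ ≤ ‖(1 : ℂ)‖ + ‖Ak s k₀ x + ∑' k, if k = k₀ then 0 else Ak s k x‖ := norm_sub_le _ _
      _ ≤ 1 + (‖Ak s k₀ x‖ + ‖∑' k, if k = k₀ then 0 else Ak s k x‖) := by
          rw [norm_one]; gcongr; exact norm_add_le _ _
      _ ≤ 4 := by linarith
  · simp only [hj, if_false]
    obtain ⟨h1, h2⟩ := split_off (fun k x hx hf => h.Bk_far hx hf) hx hk
    rw [h1]
    have h3 := h.Bk_le (k := k₀) hx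
    calc _ ≤ ‖Bk s k₀ x‖ + ‖∑' k, if k = k₀ then 0 else Bk s k x‖ := norm_add_le _ _
      _ ≤ 4 := by linarith

end Pool.Agent.U500.Cone
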