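import Mathlib
import Pool.Agent.U500.Cone.Geo

set_option autoImplicit false

/-!
# The domain
-/

open Metric Set Filter Topology
open scoped ContDiff InnerProductSpace

namespace Pool.Agent.U500.Cone

open Pool.Agent.U500.Inst

variable {n : ℕ} {η : ℝ} {s : ℕ → ℝ}

lemma contDiff_NN {N : WithTop ℕ∞} : ContDiff ℝ N (NN (n := n)) := by
  unfold NN
  apply ContDiff.sum
  intro i _
  exact (contDiff_apply ℝ ℂ i.succ).norm_sq ℝ

lemma contDiff_nsq {N : WithTop ℕ∞} : ContDiff ℝ N (fun x : Fin n → ℂ => nsq x) := by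
  unfold nsq
  apply ContDiff.sum
  intro i _
  exact (contDiff_apply ℝ ℂ i).norm_sq ℝ

lemma contDiff_rhoV {V : ℂ → ℝ} {N : WithTop ℕ∞} (hV : ContDiff ℝ N V) :
    ContDiff ℝ N (rhoV (n := n) V) := by
  unfold rhoV
  apply ContDiff.sub _ contDiff_const
  apply ContDiff.add
  · exact (contDiff_apply ℝ ℂ (0 : Fin (n + 2))).norm_sq ℝ
  · exact (contDiff_const.mul (hV.comp (contDiff_apply ℝ ℂ 0))).exp.mul contDiff_NN

lemma cont_eval0 : Continuous (fun x : Fin (n + 2) → ℂ => x 0) := continuous_apply 0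

/-- locally `rhoV` depends only on the germ of `V` -/
lemma rhoV_congr {V W : ℂ → ℝ} {x : Fin (n + 2) → ℂ} (h : V =ᶠ[𝓝 (x 0)] W) :
    rhoV V =ᶠ[𝓝 x] rhoV W := by
  have h1 := (cont_eval0.continuousAt (x := x)).tendsto.eventually h
  filter_upwards [h1] with y hy
  unfold rhoV
  rw [hy]

lemma Good.smooth_at (h : Good η s) {x : Fin (n + 2) → ℂ} (hx : x 0 ≠ 1) :
    ContDiffAt ℝ ∞ (rhoV (uS s)) x := by
  rcases h.local hx with ⟨k, _, hk⟩ | h0
  · exact (contDiff_rhoV (contDiff_U s k)).contDiffAt.congr_of_eventuallyEq (rhoV_congr hk)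
  · exact (contDiff_rhoV contDiff_const).contDiffAt.congr_of_eventuallyEq (rhoV_congr h0)

lemma fderiv_rhoV {V : ℂ → ℝ} (hV : ContDiff ℝ 1 V) (x v : Fin (n + 2) → ℂ) :
    fderiv ℝ (rhoV V) x v = r1V V x v := by
  have h1 : DifferentiableAt ℝ (rhoV (n := n) V) x :=
    (contDiff_rhoV hV).differentiable (by simp) x
  rw [← h1.lineDeriv_eq_fderiv]
  have h2 := (line_rhoV (hV.differentiable (by simp)) x v 0).deriv
  rw [zero_smul, add_zero] at h2
  exact h2

lemma r1V_zero (V : ℂ → ℝ) (x : Fin (n + 2) → ℂ) (hx : rhoV V x = 0) :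
    ∃ v, r1V V x v ≠ 0 := by
  unfold rhoV at hx
  by_cases hN : NN x = 0
  · refine ⟨x, ?_⟩
    have hx0 : ‖x 0‖ ^ 2 = 1 := by
      rw [hN] at hx; linarith
    have h1 : N1 x x = 2 * NN x := by
      unfold N1 NN
      rw [Finset.mul_sum]
      simp
    unfold r1V
    rw [h1, hN, real_inner_self_eq_norm_sq, hx0]
    norm_num
  · refine ⟨Function.update x 0 0, ?_⟩
    have hN' : 0 < NN x := lt_of_le_of_ne (NN_nonneg x) (Ne.symm hN)
    have h1 : N1 x (Function.update x 0 0) = 2 * NN x := by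
      unfold N1 NN
      rw [Finset.mul_sum]
      refine Finset.sum_congr rfl fun i _ => ?_
      rw [Function.update_of_ne (Fin.succ_ne_zero i), real_inner_self_eq_norm_sq]
    unfold r1V
    rw [h1, Function.update_self, map_zero, inner_zero_right]
    simp only [mul_zero, zero_mul, zero_add]
    have := Real.exp_pos (2 * V (x 0))
    positivity

lemma frontierV {V : ℂ → ℝ} (hV : Continuous V) {x : Fin (n + 2) → ℂ}
    (hx : x ∈ frontier {x | rhoV V x < 0}) : rhoV V x = 0 := by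
  have hc : Continuous (rhoV (n := n) V) := by
    unfold rhoV
    have hN : Continuous (NN (n := n)) := (contDiff_NN (N := 0)).continuous
    have h0 : Continuous (fun x : Fin (n + 2) → ℂ => V (x 0)) := hV.comp cont_eval0
    fun_prop
  exact frontier_lt_subset_eq hc continuous_const hx

lemma dom_sub_ballV {V : ℂ → ℝ} (hV : ∀ z, 0 ≤ V z) {x : Fin (n + 2) → ℂ}
    (hx : rhoV V x < 0) : nsq x < 1 := by
  unfold rhoV at hx
  rw [nsq_eq]
  have h1 : 1 ≤ Real.exp (2 * V (x 0)) := by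
    rw [Real.one_le_exp_iff]
    linarith [hV (x 0)]
  have h2 := NN_nonneg x
  nlinarith

lemma rhoV_zero_neg (V : ℂ → ℝ) : rhoV V (0 : Fin (n + 2) → ℂ) < 0 := by
  unfold rhoV
  have : NN (0 : Fin (n + 2) → ℂ) = 0 := by unfold NN; simp
  rw [this]
  simp

lemma connectedV (V : ℂ → ℝ) : IsConnected {x : Fin (n + 2) → ℂ | rhoV V x < 0} := by
  refine IsPathConnected.isConnected ⟨0, rhoV_zero_neg V, ?_⟩
  intro x hx
  have hx' : rhoV V x < 0 := hx
  unfold rhoV at hx'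
  have he := Real.exp_pos (2 * V (x 0))
  have hN := NN_nonneg x
  set y : Fin (n + 2) → ℂ := fun i => if i = 0 then x 0 else 0 with hy
  have hy0 : y 0 = x 0 := by simp [hy]
  have hys : ∀ i : Fin (n + 1), y i.succ = 0 := fun i => by simp [hy, Fin.succ_ne_zero]
  have h1 : JoinedIn {x : Fin (n + 2) → ℂ | rhoV V x < 0} 0 y := by
    apply JoinedIn.of_segment_subset
    rintro _ ⟨a, b, ha, hb, hab, rfl⟩
    have hb1 : b ≤ 1 := by linarith
    change rhoV V (a • 0 + b • y) < 0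
    unfold rhoV
    have e1 : NN (a • (0 : Fin (n + 2) → ℂ) + b • y) = 0 := by
      unfold NN
      simp [hys]
    have e2 : ‖(a • (0 : Fin (n + 2) → ℂ) + b • y) 0‖ ^ 2 = b ^ 2 * ‖x 0‖ ^ 2 := by
      simp only [smul_zero, zero_add, Pi.smul_apply, hy0, norm_smul, Real.norm_eq_abs, mul_pow,
        sq_abs]
    rw [e1, e2]
    have h2 : b ^ 2 * ‖x 0‖ ^ 2 ≤ 1 * ‖x 0‖ ^ 2 := by
      gcongr
      nlinarith
    have h3 : 0 ≤ Real.exp (2 * V (x 0)) * NN x := by positivity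
    linarith
  have h2 : JoinedIn {x : Fin (n + 2) → ℂ | rhoV V x < 0} y x := by
    apply JoinedIn.of_segment_subset
    rintro _ ⟨a, b, ha, hb, hab, rfl⟩
    have hb1 : b ≤ 1 := by linarith
    change rhoV V (a • y + b • x) < 0
    unfold rhoV
    have e0 : (a • y + b • x) 0 = x 0 := by
      simp only [Pi.add_apply, Pi.smul_apply, hy0]
      rw [← add_smul, hab, one_smul]
    have e1 : NN (a • y + b • x) = b ^ 2 * NN x := by
      unfold NN
      rw [Finset.mul_sum]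
      refine Finset.sum_congr rfl fun i _ => ?_
      simp only [Pi.add_apply, Pi.smul_apply, hys, smul_zero, zero_add, norm_smul,
        Real.norm_eq_abs, mul_pow, sq_abs]
    rw [e0, e1]
    have h2 : b ^ 2 * NN x ≤ 1 * NN x := by
      gcongr
      nlinarith
    have h3 : Real.exp (2 * V (x 0)) * (b ^ 2 * NN x) ≤
        Real.exp (2 * V (x 0)) * NN x := by
      gcongr
      linarith
    linarith
  exact h1.trans h2

/-- the difference to `|x|² - 1` is `C¹`-small -/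
lemma close_C1V {V : ℂ → ℝ} {κ e : ℝ} (hV : ContDiff ℝ 1 V) (hκ : 0 ≤ κ)
    (hu : ∀ z a : ℂ, |fderiv ℝ V z a| ≤ κ * ‖a‖) (x : Fin (n + 2) → ℂ) (hx : nsq x ≤ 1)
    (he1 : 1 ≤ Real.exp (2 * V (x 0))) (he : Real.exp (2 * V (x 0)) ≤ 1 + e)
    (he2 : e ≤ 1) :
    |rhoV V x - (nsq x - 1)| ≤ e ∧
      ‖fderiv ℝ (fun x => rhoV V x - (nsq x - 1)) x‖ ≤ 4 * κ + 2 * (n + 1) * e := by
  have hN : NN x ≤ 1 := by
    rw [nsq_eq] at hx
    nlinarith [sq_nonneg ‖x 0‖]
  have hN0 := NN_nonneg x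
  have he0 : 0 ≤ e := by linarith
  have hxi : ∀ i : Fin (n + 1), ‖x i.succ‖ ≤ 1 := by
    intro i
    have h1 : ‖x i.succ‖ ^ 2 ≤ NN x :=
      Finset.single_le_sum (f := fun i : Fin (n + 1) => ‖x i.succ‖ ^ 2)
        (fun _ _ => by positivity) (Finset.mem_univ i)
    nlinarith [norm_nonneg (x i.succ)]
  constructor
  · unfold rhoV
    rw [nsq_eq, abs_le]
    constructor <;> nlinarith
  · have hdiff : DifferentiableAt ℝ (fun x => rhoV V x - (nsq x - 1)) x :=
      ((contDiff_rhoV hV).sub (contDiff_nsq.sub contDiff_const)).differentiable (by simp) x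
    refine ContinuousLinearMap.opNorm_le_bound _ (by positivity) fun v => ?_
    rw [← hdiff.lineDeriv_eq_fderiv]
    have h1 : HasDerivAt (fun σ : ℝ => nsq (x + σ • v)) (2 * ⟪x 0, v 0⟫_ℝ + N1 x v) 0 := by
      have h2 := (hasDerivAt_line (x 0) (v 0) 0).norm_sq.add (line_NN x v 0)
      simp only [zero_smul, add_zero] at h2
      refine h2.congr_of_eventuallyEq (Filter.Eventually.of_forall fun σ => ?_)
      change nsq (x + σ • v) = ‖x 0 + σ • v 0‖ ^ 2 + NN (x + σ • v)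
      rw [nsq_eq]
      rfl
    have h3 := ((line_rhoV (hV.differentiable (by simp)) x v 0).sub (h1.sub_const 1)).deriv
    have h4 : lineDeriv ℝ (fun x => rhoV V x - (nsq x - 1)) x v =
        r1V V x v - (2 * ⟪x 0, v 0⟫_ℝ + N1 x v) := by
      rw [zero_smul, add_zero] at h3
      exact h3
    rw [h4]
    have h5 : r1V V x v - (2 * ⟪x 0, v 0⟫_ℝ + N1 x v) =
        Real.exp (2 * V (x 0)) * (2 * fderiv ℝ V (x 0) (v 0)) * NN x +
          (Real.exp (2 * V (x 0)) - 1) * N1 x v := by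
      unfold r1V; ring
    rw [h5, Real.norm_eq_abs]
    have h6 : |N1 x v| ≤ 2 * (n + 1) * ‖v‖ := by
      unfold N1
      calc |∑ i : Fin (n + 1), 2 * ⟪x i.succ, v i.succ⟫_ℝ|
          ≤ ∑ i : Fin (n + 1), |2 * ⟪x i.succ, v i.succ⟫_ℝ| := Finset.abs_sum_le_sum_abs _ _
        _ ≤ ∑ _i : Fin (n + 1), 2 * ‖v‖ := by
            refine Finset.sum_le_sum fun i _ => ?_
            rw [abs_mul, abs_two]
            gcongr
            calc |⟪x i.succ, v i.succ⟫_ℝ| ≤ ‖x i.succ‖ * ‖v i.succ‖ := abs_real_inner_le_norm _ _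
              _ ≤ 1 * ‖v‖ := by
                  gcongr
                  · exact hxi i
                  · exact norm_le_pi_norm v _
              _ = ‖v‖ := one_mul _
        _ = _ := by
            rw [Finset.sum_const, Finset.card_univ, Fintype.card_fin, nsmul_eq_mul]
            push_cast; ring
    have h7 : |fderiv ℝ V (x 0) (v 0)| ≤ κ * ‖v‖ := by
      refine (hu _ _).trans ?_
      gcongr
      exact norm_le_pi_norm v _
    have h8 : |Real.exp (2 * V (x 0)) - 1| ≤ e := by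
      rw [abs_le]; constructor <;> linarith
    calc _ ≤ |Real.exp (2 * V (x 0)) * (2 * fderiv ℝ V (x 0) (v 0)) * NN x| +
          |(Real.exp (2 * V (x 0)) - 1) * N1 x v| := abs_add_le _ _
      _ ≤ 2 * (2 * (κ * ‖v‖)) * 1 + e * (2 * (n + 1) * ‖v‖) := by
          rw [abs_mul, abs_mul, abs_mul, abs_mul, abs_two, Real.abs_exp, abs_of_nonneg hN0]
          gcongr
          linarith
      _ = _ := by ring

/-! ### the Levi form -/

lemma L2_U (s : ℕ → ℝ) (k : ℕ) (z a : ℂ) :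
    L2 (U s k) z a = s k ^ 2 * iteratedDeriv 2 (fun σ : ℝ =>
      PP (k + 1) ((z - bb k) / ((s k * bet k : ℝ) : ℂ) + σ • (a / ((s k * bet k : ℝ) : ℂ)))) 0 := by
  unfold L2 U
  have h1 : (fun σ : ℝ => s k ^ 2 * PP (k + 1) ((z + σ • a - bb k) / ((s k * bet k : ℝ) : ℂ))) =
      fun σ : ℝ => s k ^ 2 * (fun σ : ℝ => PP (k + 1) ((z - bb k) / ((s k * bet k : ℝ) : ℂ) +
        σ • (a / ((s k * bet k : ℝ) : ℂ)))) σ := by
    funext σ
    congr 2
    rw [Complex.real_smul, Complex.real_smul]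
    ring
  rw [h1, iteratedDeriv_const_mul_field]

lemma L2_U_add {k : ℕ} (hs : 0 < s k) (z a : ℂ) :
    -(‖a‖ ^ 2 / bet k ^ 2) ≤ L2 (U s k) z a + L2 (U s k) z (Complex.I * a) := by
  have hβ := bet_pos k
  have hr : 0 < s k * bet k := by positivity
  rw [L2_U, L2_U]
  have h1 := second_PP_add (Nat.succ_pos k) ((z - bb k) / ((s k * bet k : ℝ) : ℂ))
    (a / ((s k * bet k : ℝ) : ℂ))
  rw [← mul_div_assoc] at h1
  have h2 : ‖a / ((s k * bet k : ℝ) : ℂ)‖ ^ 2 = ‖a‖ ^ 2 / (s k * bet k) ^ 2 := by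
    rw [norm_div, Complex.norm_real, Real.norm_of_nonneg hr.le, div_pow]
  rw [h2] at h1
  rw [← mul_add]
  calc -(‖a‖ ^ 2 / bet k ^ 2) = s k ^ 2 * -(‖a‖ ^ 2 / (s k * bet k) ^ 2) := by
        field_simp
    _ ≤ _ := by
        gcongr

lemma leviForm_congr {ρ ρ' : (Fin (n + 2) → ℂ) → ℝ} {x : Fin (n + 2) → ℂ} (h : ρ =ᶠ[𝓝 x] ρ')
    (v : Fin (n + 2) → ℂ) : leviForm ρ x v = leviForm ρ' x v := by
  have key : ∀ w : Fin (n + 2) → ℂ, iteratedDeriv 2 (fun σ : ℝ => ρ (x + σ • w)) 0 =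
      iteratedDeriv 2 (fun σ : ℝ => ρ' (x + σ • w)) 0 := by
    intro w
    apply Filter.EventuallyEq.iteratedDeriv_eq
    have hc : ContinuousAt (fun σ : ℝ => x + σ • w) 0 := by fun_prop
    have hx : Tendsto (fun σ : ℝ => x + σ • w) (𝓝 0) (𝓝 x) := by
      have := hc.tendsto
      simpa using this
    exact hx.eventually h
  unfold leviForm
  rw [key v, key (Complex.I • v)]

/-- the Levi form on the complex tangent spaces is bounded from below -/
lemma Good.levi (h : Good η s) (hη1 : η ≤ 1) {x : Fin (n + 2) → ℂ} (hx : rhoV (uS s) x = 0)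
    (hx1 : x 0 ≠ 1) (v : Fin (n + 2) → ℂ) (h1 : fderiv ℝ (rhoV (uS s)) x v = 0)
    (h2 : fderiv ℝ (rhoV (uS s)) x (Complex.I • v) = 0) :
    nsq v ≤ 10 * leviForm (rhoV (uS s)) x v := by
  rcases h.local hx1 with ⟨k, hk, hkk⟩ | h0
  · have hc := rhoV_congr hkk
    rw [hc.fderiv_eq, fderiv_rhoV ((contDiff_U s k).of_le (by exact_mod_cast le_top))] at h1 h2
    rw [leviForm_congr hc]
    have hx' : rhoV (U s k) x = 0 := by
      rw [← hc.eq_of_nhds]; exact hx
    refine levi_core (contDiff_U s k) x v hx' (U_nonneg s k _) ?_ ?_ h1 h2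
    · intro a
      have h3 := (fderiv ℝ (U s k) (x 0)).le_opNorm a
      rw [Real.norm_eq_abs] at h3
      refine h3.trans ?_
      gcongr
      refine (h.der k (x 0)).trans ?_
      have h4 : (1 / 2 : ℝ) ^ (k + 1) ≤ 1 / 2 := by
        calc (1 / 2 : ℝ) ^ (k + 1) ≤ (1 / 2) ^ 1 :=
              pow_le_pow_of_le_one (by norm_num) (by norm_num) (by omega)
          _ = _ := pow_one _
      have h5 : (0 : ℝ) < (1 / 2 : ℝ) ^ (k + 1) := by positivity
      nlinarith
    · have h3 := L2_U_add (h.pos k) (x 0) (v 0)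
      obtain ⟨h4, h5⟩ := near_b hk
      have hβ := bet_pos k
      have h6 : 0 ≤ 1 - ‖x 0‖ ^ 2 := by nlinarith
      have h7 : (1 - ‖x 0‖ ^ 2) ^ 2 ≤ 1.1 * bet k ^ 2 := by
        calc (1 - ‖x 0‖ ^ 2) ^ 2 ≤ (1.045 * bet k) ^ 2 := by gcongr
          _ = 1.092025 * bet k ^ 2 := by ring
          _ ≤ _ := by nlinarith [sq_nonneg (bet k)]
      have h8 : 0 ≤ ‖v 0‖ ^ 2 / bet k ^ 2 := by positivity
      calc -(1.1 * ‖v 0‖ ^ 2) = 1.1 * bet k ^ 2 * -(‖v 0‖ ^ 2 / bet k ^ 2) := by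
            field_simp
        _ ≤ (1 - ‖x 0‖ ^ 2) ^ 2 * -(‖v 0‖ ^ 2 / bet k ^ 2) := by nlinarith
        _ ≤ _ := by gcongr
  · have hc := rhoV_congr h0
    have h00 : ContDiff ℝ ∞ (fun _ : ℂ => (0 : ℝ)) := contDiff_const
    rw [hc.fderiv_eq, fderiv_rhoV (h00.of_le (by exact_mod_cast le_top))] at h1 h2
    rw [leviForm_congr hc]
    have hx' : rhoV (fun _ => 0) x = 0 := by
      rw [← hc.eq_of_nhds]; exact hx
    refine levi_core h00 x v hx' le_rfl ?_ ?_ h1 h2
    · intro a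
      simp
    · have h3 : ∀ z a : ℂ, L2 (fun _ => 0) z a = 0 := by
        intro z a
        unfold L2
        simp
      rw [h3, h3]
      have := sq_nonneg ‖v 0‖
      simp only [add_zero, mul_zero]
      linarith

end Pool.Agent.U500.Cone
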