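import Mathlib
import Pool.Agent.U500.Cone.Dom
import Pool.Agent.U500.Cone.Dat

set_option autoImplicit false

/-!
# Lower bound of the data on the domain; values at the points `p_k`
-/

open Metric Set Filter Topology
open scoped ContDiff InnerProductSpace

namespace Pool.Agent.U500.Cone

open Pool.Agent.U500.Inst

variable {n : ℕ} {η : ℝ} {s : ℕ → ℝ}

/-- in local coordinates the profile is large near the centre -/
lemma Good.U_large (h : Good η s) {k : ℕ} {x : Fin (n + 2) → ℂ} (hx : nsq x < 1)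
    (hz : ‖zet k x‖ ^ 2 ≤ s k ^ 2 / 4) : s k ^ 2 * 2.6 ≤ U s k (x 0) := by
  have hs := h.pos k
  have hs1 := h.le' k
  have hβ := bet_pos k
  have hb0 := bb_nonneg k
  have hb1 := bb_lt k
  have hc := cpos (k := k) hx
  have hc' : 1 - (bb k : ℂ) * x 0 ≠ 0 := norm_pos_iff.1 hc
  have h1 : ‖zet k x‖ ≤ s k / 2 := by
    apply le_of_sq_le_sq _ (by positivity)
    rw [div_pow]
    linarith
  have h2 : x 0 - bb k = zet k x * (1 - bb k * x 0) := by
    unfold zet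
    rw [div_mul_cancel₀ _ hc']
  have h3 : (1 - (bb k : ℂ) * x 0) * (1 + bb k * zet k x) = bet k := by
    have h4 : (1 - (bb k : ℂ) * x 0) * (1 + bb k * zet k x) =
        1 - bb k * x 0 + bb k * (zet k x * (1 - bb k * x 0)) := by ring
    rw [h4, ← h2]
    have h5 : (bb k : ℂ) ^ 2 = 1 - bet k := by
      rw [← Complex.ofReal_pow, bb_sq]; push_cast; ring
    linear_combination (-1 : ℂ) * h5
  have h4 : ‖1 - (bb k : ℂ) * x 0‖ * (1 - ‖zet k x‖) ≤ bet k := by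
    have h5 : ‖(1 - (bb k : ℂ) * x 0)‖ * ‖(1 + bb k * zet k x)‖ = bet k := by
      rw [← norm_mul, h3, Complex.norm_real, Real.norm_of_nonneg hβ.le]
    rw [← h5]
    gcongr
    have h6 := norm_sub_norm_le (1 : ℂ) (-(bb k * zet k x))
    rw [norm_one, norm_neg, norm_mul, Complex.norm_real, Real.norm_of_nonneg hb0,
      sub_neg_eq_add] at h6
    nlinarith [norm_nonneg (zet k x)]
  have h5 : ‖x 0 - bb k‖ ≤ 0.51 * (s k * bet k) := by
    rw [h2, norm_mul]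
    have h6 : ‖1 - (bb k : ℂ) * x 0‖ ≤ 1.002 * bet k := by
      have h7 : (1 - 1 / 2000) * ‖1 - (bb k : ℂ) * x 0‖ ≤
          ‖1 - (bb k : ℂ) * x 0‖ * (1 - ‖zet k x‖) := by nlinarith
      nlinarith
    calc ‖zet k x‖ * ‖1 - (bb k : ℂ) * x 0‖ ≤ s k / 2 * (1.002 * bet k) := by gcongr
      _ ≤ _ := by nlinarith [mul_pos hs hβ]
  unfold U
  gcongr
  apply le_PP (Nat.succ_pos k)
  have hr : 0 < s k * bet k := by positivity
  rw [norm_div, Complex.norm_real, Real.norm_of_nonneg hr.le, div_le_iff₀ hr]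
  exact h5

lemma Good.loc_dom (h : Good η s) {k : ℕ} {x : Fin (n + 2) → ℂ} (hx : rhoV (uS s) x < 0) :
    ‖zet k x‖ ^ 2 + Real.exp (2 * U s k (x 0)) * ‖ome k x‖ ^ 2 < 1 := by
  have hxb : nsq x < 1 := dom_sub_ballV h.u_nonneg hx
  have hc := cpos (k := k) hxb
  have hβ := bet_pos k
  have h1 : Real.exp (2 * U s k (x 0)) * ‖x 1‖ ^ 2 < 1 - ‖x 0‖ ^ 2 := by
    unfold rhoV at hx
    have h2 : Real.exp (2 * U s k (x 0)) ≤ Real.exp (2 * uS s (x 0)) :=
      Real.exp_le_exp.2 (by linarith [h.U_le_u k (x 0)])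
    have h3 := sq1_le x
    have h4 : Real.exp (2 * U s k (x 0)) * ‖x 1‖ ^ 2 ≤ Real.exp (2 * uS s (x 0)) * NN x := by
      gcongr
    linarith
  have h2 := zet_sq (k := k) hxb
  have h3 : Real.exp (2 * U s k (x 0)) * ‖ome k x‖ ^ 2 < 1 - ‖zet k x‖ ^ 2 := by
    rw [h2, ome_sq, ← mul_div_assoc, mul_left_comm]
    gcongr
  linarith

lemma final_num {a b c d : ℝ} (h : 1 / 10 < a ^ 2 + b ^ 2) (ha : 0 ≤ a) (hb : 0 ≤ b)
    (hc : a - 0.0117 ≤ c) (hd : b - 0.0117 ≤ d) : 1 / 25 < c ^ 2 + d ^ 2 := by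
  by_cases h1 : 0.2236 ≤ a
  · nlinarith [sq_nonneg d]
  · push Not at h1
    have h2 : 0.2236 ≤ b := by
      by_contra hcon
      push Not at hcon
      nlinarith
    nlinarith [sq_nonneg c]

/-- lower bound of the data on the domain -/
lemma Good.lower (h : Good η s) {x : Fin (n + 2) → ℂ} (hx : rhoV (uS s) x < 0) :
    1 / 25 < ∑ j, ‖FF s j x‖ ^ 2 := by
  have hxb : nsq x < 1 := dom_sub_ballV h.u_nonneg hx
  obtain ⟨k, hk⟩ := exists_k0 x
  obtain ⟨w1, w2, w3, w4⟩ := w0_facts (h.t_pos k) (h.t_le k)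
  have hden := den_ne (h.t_pos k) (h.t_le k) (ome_lt (k := k) hxb)
  have h1 := lower_core (t := s k ^ 2) (e := Real.exp (2 * U s k (x 0))) (h.t_pos k) (h.t_le k)
    (z := zet k x) (w := ome k x) (by
      rw [Real.one_le_exp_iff]
      linarith [U_nonneg s k (x 0)]) (h.loc_dom hx) (by
      intro hz
      have h2 := h.U_large hxb hz
      have h3 := Real.add_one_le_exp (2 * U s k (x 0))
      linarith)
  obtain ⟨a1, a2⟩ := split_off (fun k x hx hf => h.Ak_far hx hf) hxb hk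
  obtain ⟨b1, b2⟩ := split_off (fun k x hx hf => h.Bk_far hx hf) hxb hk
  set SA := ∑' j, if j = k then 0 else Ak s j x with hSA
  set SB := ∑' j, if j = k then 0 else Bk s j x with hSB
  set w₀ := √(1 - 2 * s k ^ 2) with hw0
  set G := ((w₀ : ℂ) - ome k x) / (1 - w₀ * ome k x) with hG
  set H := (√(2 * s k ^ 2) : ℂ) * (zet k x / (1 - w₀ * ome k x)) with hH
  have ht := h.sq_le k
  have ht2 := h.sqrt_le k
  have hbd : bd k ≤ 1 / 200 := by
    unfold bd
    have : (1 / 2 : ℝ) ^ (k + 1) ≤ 1 / 2 := by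
      calc (1 / 2 : ℝ) ^ (k + 1) ≤ (1 / 2) ^ 1 :=
            pow_le_pow_of_le_one (by norm_num) (by norm_num) (by omega)
        _ = _ := pow_one _
    linarith
  have hs1 := h.le' k
  have hs0 := h.pos k
  have e0 : FF s 0 x = G + ((1 - w₀ : ℝ) : ℂ) - SA := by
    unfold FF
    simp only [if_true]
    rw [a1]
    have : Ak s k x = 1 - (G + ((1 - w₀ : ℝ) : ℂ)) := by
      unfold Ak AA
      rw [hG, ← hw0]
      have h5 : (w₀ : ℂ) ^ 2 = 1 - 2 * (s k ^ 2 : ℝ) := by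
        rw [← Complex.ofReal_pow, w2]; push_cast; ring
      push_cast at h5 ⊢
      have h6 : ∀ X Y : ℂ, X / (1 - (w₀ : ℂ) * ome k x) +
          (Y / (1 - (w₀ : ℂ) * ome k x) + (1 - (w₀ : ℂ))) =
          (X + Y + (1 - (w₀ : ℂ)) * (1 - (w₀ : ℂ) * ome k x)) / (1 - (w₀ : ℂ) * ome k x) := by
        intro X Y
        rw [add_div, add_div, mul_div_cancel_right₀ _ hden]
        ring
      rw [eq_sub_iff_add_eq, h6, div_eq_one_iff_eq hden]
      linear_combination (ome k x) * h5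
    rw [this]
    ring
  have e1 : FF s 1 x = H - ((√(2 * s k ^ 2) : ℝ) : ℂ) + SB := by
    unfold FF
    simp only [one_ne_zero, if_false]
    rw [b1]
    unfold Bk BB
    rw [hH, ← hw0]
    ring
  rw [Fin.sum_univ_two]
  apply final_num h1 (norm_nonneg _) (norm_nonneg _)
  · rw [e0]
    have c1 : ‖G‖ ≤ ‖G + ((1 - w₀ : ℝ) : ℂ) - SA‖ + ‖((1 - w₀ : ℝ) : ℂ)‖ + ‖SA‖ := by
      calc ‖G‖ = ‖(G + ((1 - w₀ : ℝ) : ℂ) - SA) + -((1 - w₀ : ℝ) : ℂ) + SA‖ := by congr 1; ring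
        _ ≤ _ := by
          refine (norm_add₃_le).trans ?_
          rw [norm_neg]
    rw [Complex.norm_real, Real.norm_of_nonneg (by linarith : 0 ≤ 1 - w₀)] at c1
    have : 1 - w₀ ≤ 0.001 := by nlinarith
    linarith
  · rw [e1]
    have c1 : ‖H‖ ≤ ‖H - ((√(2 * s k ^ 2) : ℝ) : ℂ) + SB‖ + ‖((√(2 * s k ^ 2) : ℝ) : ℂ)‖ + ‖SB‖ := by
      calc ‖H‖ = ‖(H - ((√(2 * s k ^ 2) : ℝ) : ℂ) + SB) + ((√(2 * s k ^ 2) : ℝ) : ℂ) + -SB‖ := by
            congr 1; ring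
        _ ≤ _ := by
          refine (norm_add₃_le).trans ?_
          rw [norm_neg]
    rw [Complex.norm_real, Real.norm_of_nonneg (Real.sqrt_nonneg _)] at c1
    linarith

/-! ### the points `p_k` -/

/-- the chart at the `k`-th point -/
noncomputable def Phi (n k : ℕ) (ξ w : ℂ) : Fin (n + 2) → ℂ :=
  vec n (bb k + bet k * ξ) (√(bet k) * (1 - bb k * ξ) * w)

noncomputable def pk (n : ℕ) (s : ℕ → ℝ) (k : ℕ) : Fin (n + 2) → ℂ :=
  Phi n k 0 (√(1 - 2 * s k ^ 2) : ℝ)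

lemma nsq_vec (z w : ℂ) : nsq (vec n z w) = ‖z‖ ^ 2 + ‖w‖ ^ 2 := by
  rw [nsq_eq, NN_vec, vec_zero]

/-- `1 - |z|²` in the chart -/
lemma chart_id (k : ℕ) (ξ : ℂ) : 1 - ‖(bb k : ℂ) + bet k * ξ‖ ^ 2 =
    bet k * (‖1 - (bb k : ℂ) * ξ‖ ^ 2 - ‖ξ‖ ^ 2) := by
  have hb := bb_sq k
  rw [← Complex.normSq_eq_norm_sq, ← Complex.normSq_eq_norm_sq, ← Complex.normSq_eq_norm_sq,
    Complex.normSq_apply, Complex.normSq_apply, Complex.normSq_apply]
  simp only [Complex.add_re, Complex.add_im, Complex.sub_re, Complex.sub_im, Complex.one_re,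
    Complex.one_im, Complex.mul_re, Complex.mul_im, Complex.ofReal_re, Complex.ofReal_im]
  linear_combination (-1 - bet k * (ξ.re ^ 2 + ξ.im ^ 2)) * hb

lemma rho_chart (V : ℂ → ℝ) (k : ℕ) (ξ w : ℂ) :
    rhoV V (Phi n k ξ w) = bet k * (Real.exp (2 * V (bb k + bet k * ξ)) *
      (‖1 - (bb k : ℂ) * ξ‖ ^ 2 * ‖w‖ ^ 2) - (‖1 - (bb k : ℂ) * ξ‖ ^ 2 - ‖ξ‖ ^ 2)) := by
  unfold rhoV Phi
  rw [NN_vec, vec_zero]
  have h1 := chart_id k ξ
  have h2 : ‖(√(bet k) : ℂ) * (1 - bb k * ξ) * w‖ ^ 2 =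
      bet k * (‖1 - (bb k : ℂ) * ξ‖ ^ 2 * ‖w‖ ^ 2) := by
    rw [norm_mul, norm_mul, Complex.norm_real, Real.norm_of_nonneg (Real.sqrt_nonneg _), mul_pow,
      mul_pow, Real.sq_sqrt (bet_pos k).le]
    ring
  rw [h2]
  linear_combination (-1 : ℝ) * h1

lemma nsq_Phi0 (k : ℕ) {w : ℂ} (hw : ‖w‖ < 1) : nsq (Phi n k 0 w) < 1 := by
  unfold Phi
  rw [nsq_vec]
  simp only [mul_zero, add_zero, sub_zero, mul_one]
  rw [norm_mul, Complex.norm_real, Complex.norm_real, Real.norm_of_nonneg (bb_nonneg k),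
    Real.norm_of_nonneg (Real.sqrt_nonneg _), mul_pow, Real.sq_sqrt (bet_pos k).le, bb_sq]
  have := bet_pos k
  have : ‖w‖ ^ 2 < 1 := by nlinarith [norm_nonneg w]
  nlinarith

lemma Good.pk_ball (h : Good η s) (k : ℕ) : nsq (pk n s k) < 1 := by
  apply nsq_Phi0
  obtain ⟨w1, w2, w3, w4⟩ := w0_facts (h.t_pos k) (h.t_le k)
  rw [Complex.norm_real, Real.norm_of_nonneg w1.le]
  exact w3

lemma pk_zero (s : ℕ → ℝ) (k : ℕ) : pk n s k 0 = bb k := by
  unfold pk Phi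
  rw [vec_zero]
  simp

lemma pk_one (s : ℕ → ℝ) (k : ℕ) : pk n s k 1 = √(bet k) * (√(1 - 2 * s k ^ 2) : ℝ) := by
  unfold pk Phi
  rw [vec_one]
  simp

lemma pk_far (s : ℕ → ℝ) {j k : ℕ} (hjk : j ≠ k) : Far j (pk n s k) := by
  unfold Far
  rw [pk_zero, Complex.norm_real, Real.norm_of_nonneg (bb_nonneg k), bb_sq]
  have hβj := bet_pos j
  have hβk := bet_pos k
  rcases lt_or_gt_of_ne hjk with hl | hl
  · have := bet_lt hl
    right
    linarith
  · have := bet_lt hl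
    left
    linarith

lemma zet_pk (s : ℕ → ℝ) (k : ℕ) : zet k (pk n s k) = 0 := by
  unfold zet
  rw [pk_zero, sub_self, zero_div]

lemma ome_pk (s : ℕ → ℝ) (k : ℕ) : ome k (pk n s k) = (√(1 - 2 * s k ^ 2) : ℝ) := by
  unfold ome
  rw [pk_zero, pk_one]
  have h1 : 1 - (bb k : ℂ) * bb k = bet k := by
    rw [← Complex.ofReal_mul, ← sq, bb_sq]; push_cast; ring
  have h2 : (√(bet k) : ℂ) * √(bet k) = bet k := by
    rw [← Complex.ofReal_mul, Real.mul_self_sqrt (bet_pos k).le]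
  have h3 : (bet k : ℂ) ≠ 0 := by exact_mod_cast (bet_pos k).ne'
  rw [h1, ← mul_assoc, h2, mul_div_cancel_left₀ _ h3]

lemma tend_bet : Tendsto bet atTop (𝓝 0) := summable_bet.tendsto_atTop_zero

lemma tend_bb : Tendsto (fun k => (bb k : ℂ)) atTop (𝓝 1) := by
  have h1 : Tendsto (fun k => √(1 - bet k)) atTop (𝓝 √(1 - 0)) :=
    (Real.continuous_sqrt.tendsto _).comp (tend_bet.const_sub 1)
  rw [sub_zero, Real.sqrt_one] at h1
  have h2 := (Complex.continuous_ofReal.tendsto 1).comp h1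
  rw [Complex.ofReal_one] at h2
  exact h2

lemma Good.tend_pk1 (h : Good η s) : Tendsto (fun k => pk n s k 1) atTop (𝓝 0) := by
  rw [tendsto_zero_iff_norm_tendsto_zero]
  have h1 : Tendsto (fun k => √(bet k)) atTop (𝓝 √0) :=
    (Real.continuous_sqrt.tendsto _).comp tend_bet
  rw [Real.sqrt_zero] at h1
  refine squeeze_zero (fun k => norm_nonneg _) (fun k => ?_) h1
  obtain ⟨w1, w2, w3, w4⟩ := w0_facts (h.t_pos k) (h.t_le k)
  rw [pk_one, norm_mul, Complex.norm_real, Complex.norm_real,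
    Real.norm_of_nonneg (Real.sqrt_nonneg _), Real.norm_of_nonneg w1.le]
  have := Real.sqrt_nonneg (bet k)
  nlinarith

lemma one_sub_bb_ne (j : ℕ) : (1 : ℂ) - bb j * 1 ≠ 0 := by
  rw [mul_one, ← Complex.ofReal_one, ← Complex.ofReal_sub]
  have := bb_lt j
  exact_mod_cast (by linarith : (1 : ℝ) - bb j ≠ 0)

lemma tend_zet (s : ℕ → ℝ) (j : ℕ) : Tendsto (fun k => zet j (pk n s k)) atTop (𝓝 1) := by
  have h1 : Tendsto (fun k => ((bb k : ℂ) - bb j) / (1 - bb j * bb k)) atTop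
      (𝓝 ((1 - bb j) / (1 - bb j * 1))) :=
    (tend_bb.sub_const _).div ((tend_bb.const_mul _).const_sub 1) (one_sub_bb_ne j)
  have h2 : ((1 : ℂ) - bb j) / (1 - bb j * 1) = 1 := by
    rw [mul_one]
    exact div_self (by simpa using one_sub_bb_ne j)
  rw [h2] at h1
  refine h1.congr fun k => ?_
  unfold zet
  rw [pk_zero]

lemma Good.tend_ome (h : Good η s) (j : ℕ) : Tendsto (fun k => ome j (pk n s k)) atTop (𝓝 0) := by
  have h1 : Tendsto (fun k => (√(bet j) : ℂ) * pk n s k 1 / (1 - bb j * bb k)) atTop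
      (𝓝 ((√(bet j) : ℂ) * 0 / (1 - bb j * 1))) :=
    (h.tend_pk1.const_mul _).div ((tend_bb.const_mul _).const_sub 1) (one_sub_bb_ne j)
  rw [mul_zero, zero_div] at h1
  refine h1.congr fun k => ?_
  unfold ome
  rw [pk_zero]

lemma Good.tend_Ak (h : Good η s) (j : ℕ) : Tendsto (fun k => Ak s j (pk n s k)) atTop (𝓝 0) := by
  have h1 := h.tend_ome (n := n) j
  have h2 : Tendsto (fun k => 2 * ((s j ^ 2 : ℝ) : ℂ) * ome j (pk n s k) /
      (1 - ((√(1 - 2 * s j ^ 2) : ℝ) : ℂ) * ome j (pk n s k))) atTop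
      (𝓝 (2 * ((s j ^ 2 : ℝ) : ℂ) * 0 / (1 - ((√(1 - 2 * s j ^ 2) : ℝ) : ℂ) * 0))) :=
    (h1.const_mul _).div ((h1.const_mul _).const_sub 1) (by simp)
  rw [mul_zero, zero_div] at h2
  exact h2

lemma Good.tend_Bk (h : Good η s) (j : ℕ) : Tendsto (fun k => Bk s j (pk n s k)) atTop (𝓝 0) := by
  have h1 := h.tend_ome (n := n) j
  have h0 := tend_zet (n := n) s j
  have h2 : Tendsto (fun k => (√(2 * s j ^ 2) : ℂ) * (zet j (pk n s k) /
      (1 - ((√(1 - 2 * s j ^ 2) : ℝ) : ℂ) * ome j (pk n s k)) - 1)) atTop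
      (𝓝 ((√(2 * s j ^ 2) : ℂ) * (1 / (1 - ((√(1 - 2 * s j ^ 2) : ℝ) : ℂ) * 0) - 1))) :=
    ((h0.div ((h1.const_mul _).const_sub 1) (by simp)).sub_const 1).const_mul _
  have h3 : (√(2 * s j ^ 2) : ℂ) * (1 / (1 - ((√(1 - 2 * s j ^ 2) : ℝ) : ℂ) * 0) - 1) = 0 := by
    simp
  rw [h3] at h2
  exact h2

/-- Tannery -/
lemma tannery {G : ℕ → (Fin (n + 2) → ℂ) → ℂ} {p : ℕ → (Fin (n + 2) → ℂ)}
    (hp : ∀ k, nsq (p k) < 1) (hpf : ∀ j k, j ≠ k → Far j (p k))
    (hf : ∀ k x, nsq x < 1 → Far k x → ‖G k x‖ ≤ bd k)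
    (ht : ∀ j, Tendsto (fun k => G j (p k)) atTop (𝓝 0)) :
    Tendsto (fun k => ∑' j, if j = k then 0 else G j (p k)) atTop (𝓝 0) := by
  have h1 := tendsto_tsum_of_dominated_convergence (𝓕 := atTop)
    (f := fun k j => if j = k then 0 else G j (p k)) (g := fun _ : ℕ => (0 : ℂ)) (bound := bd)
    bd_sum.summable (fun j => ?_) (Eventually.of_forall fun k j => ?_)
  · rwa [tsum_zero] at h1
  · refine (ht j).congr' ?_
    filter_upwards [eventually_gt_atTop j] with k hk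
    rw [if_neg (by omega)]
  · by_cases hjk : j = k
    · rw [if_pos hjk, norm_zero]; exact bd_nonneg j
    · rw [if_neg hjk]
      exact hf j _ (hp k) (hpf j k hjk)

lemma Good.tend_s (h : Good η s) : Tendsto (fun k => bd k) atTop (𝓝 0) :=
  bd_sum.summable.tendsto_atTop_zero

/-- the data tend to `0` along `p_k` -/
lemma Good.tend_FF (h : Good η s) (i : Fin 2) :
    Tendsto (fun k => ‖FF s i (pk n s k)‖) atTop (𝓝 0) := by
  rw [← tendsto_zero_iff_norm_tendsto_zero]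
  have hbd := h.tend_s
  by_cases hi : i = 0
  · have h1 := tannery (G := Ak (n := n) s) (p := pk n s) h.pk_ball (fun j k hjk => pk_far s hjk)
      (fun k x hx hf => h.Ak_far hx hf) h.tend_Ak
    have h2 : Tendsto (fun k => (((1 - √(1 - 2 * s k ^ 2)) : ℝ) : ℂ)) atTop (𝓝 0) := by
      rw [tendsto_zero_iff_norm_tendsto_zero]
      refine squeeze_zero (fun k => norm_nonneg _) (fun k => ?_) hbd
      obtain ⟨w1, w2, w3, w4⟩ := w0_facts (h.t_pos k) (h.t_le k)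
      rw [Complex.norm_real, Real.norm_of_nonneg (by linarith)]
      exact w4.trans (h.sq_le k)
    have h3 := h2.sub h1
    rw [sub_zero] at h3
    refine h3.congr fun k => ?_
    unfold FF
    simp only [hi, if_true]
    obtain ⟨a1, _⟩ := split_off (fun k x hx hf => h.Ak_far hx hf) (h.pk_ball (n := n) k)
      (fun j hj => pk_far s hj)
    rw [a1]
    have h4 : Ak s k (pk n s k) = (√(1 - 2 * s k ^ 2) : ℝ) := by
      obtain ⟨w1, w2, w3, w4⟩ := w0_facts (h.t_pos k) (h.t_le k)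
      unfold Ak AA
      rw [ome_pk]
      have h5 : (1 : ℂ) - (√(1 - 2 * s k ^ 2) : ℝ) * (√(1 - 2 * s k ^ 2) : ℝ) =
          2 * ((s k ^ 2 : ℝ) : ℂ) := by
        rw [← Complex.ofReal_mul, ← sq, w2]; push_cast; ring
      have h6 : (2 : ℂ) * ((s k ^ 2 : ℝ) : ℂ) ≠ 0 := by
        have := h.t_pos k
        exact_mod_cast (by positivity : (2 : ℝ) * s k ^ 2 ≠ 0)
      rw [h5, mul_div_cancel_left₀ _ h6]
    rw [h4]
    push_cast
    ring
  · have h1 := tannery (G := Bk (n := n) s) (p := pk n s) h.pk_ball (fun j k hjk => pk_far s hjk)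
      (fun k x hx hf => h.Bk_far hx hf) h.tend_Bk
    have h2 : Tendsto (fun k => (-(√(2 * s k ^ 2) : ℝ) : ℂ)) atTop (𝓝 0) := by
      rw [tendsto_zero_iff_norm_tendsto_zero]
      refine squeeze_zero (fun k => norm_nonneg _) (fun k => ?_) hbd
      rw [norm_neg, Complex.norm_real, Real.norm_of_nonneg (Real.sqrt_nonneg _)]
      have := h.sqrt_le k
      have := Real.sqrt_nonneg (2 * s k ^ 2)
      linarith
    have h3 := h2.add h1
    rw [add_zero] at h3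
    refine h3.congr fun k => ?_
    unfold FF
    simp only [hi, if_false]
    obtain ⟨a1, _⟩ := split_off (fun k x hx hf => h.Bk_far hx hf) (h.pk_ball (n := n) k)
      (fun j hj => pk_far s hj)
    rw [a1]
    congr 1
    unfold Bk BB
    rw [zet_pk, zero_div, zero_sub]
    ring

end Pool.Agent.U500.Cone
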