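import Mathlib
import Pool.Agent.U500.Cone.Low
import Pool.Agent.U500.Inst.Avg

set_option autoImplicit false

/-!
# There is no bounded solution
-/

open Metric Set Filter Topology
open scoped ContDiff InnerProductSpace

namespace Pool.Agent.U500.Cone

open Pool.Agent.U500.Inst

/-- The main estimate for two data functions. -/
lemma main_est2 {h : Fin 2 → ℂ → ℂ → ℂ} {F : Fin 2 → ℂ → ℂ} {s t w₀ C : ℝ} (hs : 0 < s)
    (ht : 0 < t) (ht1 : t ≤ 1 / 400)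
    (hw0 : w₀ = √(1 - 2 * t)) {m : ℕ} (hm : 0 < m) {ζ : ℂ} (hζ : IsPrimitiveRoot ζ m)
    (hF : ∀ i, DifferentiableOn ℂ (F i) (ball 0 1))
    (hFb : ∀ i, ∀ w ∈ ball (0 : ℂ) 1, ‖F i w‖ ≤ 4)
    (h1 : ∀ i, ∀ j < m, DifferentiableOn ℂ (h i (s * ζ ^ j)) (ball 0 √(1 - 11 / 10 * t)))
    (h1b : ∀ i, ∀ j < m, ∀ w ∈ ball (0 : ℂ) √(1 - 11 / 10 * t), ‖h i (s * ζ ^ j) w‖ ≤ C)
    (h2 : ∀ i, ∀ w : ℂ, ‖w‖ ^ 2 < 1 - 18 * t → DiffContOnCl ℂ (fun z => h i z w) (ball 0 (2 * s)))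
    (h2b : ∀ i, ∀ w : ℂ, ‖w‖ ^ 2 < 1 - 18 * t → ∀ z ∈ closedBall (0 : ℂ) (2 * s), ‖h i z w‖ ≤ C)
    (h3 : ∀ w : ℂ, ‖w‖ ^ 2 < 1 - 18 * t → ∑ i, F i w * h i 0 w = 1)
    (hC1 : 16 * C * (1 / 2) ^ m ≤ 1) :
    1 - C * (‖F 0 w₀‖ + ‖F 1 w₀‖) ≤ (16 * C * (1 / 2) ^ m) ^ (1 / 40 : ℝ) * (8 * C + 1) := by
  have hC0 : 0 ≤ C := (norm_nonneg _).trans (h1b 0 0 hm 0 (mem_ball_self (by
    apply Real.sqrt_pos.2; linarith)))
  have hw0p : 0 < w₀ := by rw [hw0]; apply Real.sqrt_pos.2; linarith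
  have hr3 : √(1 - 11 / 10 * t) < 1 := by
    rw [Real.sqrt_lt' one_pos]; linarith
  have hsub : ∀ w ∈ ball (0 : ℂ) √(1 - 11 / 10 * t), w ∈ ball (0 : ℂ) 1 :=
    fun w hw => ball_subset_ball hr3.le hw
  set Q : Fin 2 → ℂ → ℂ := fun i w => (∑ j ∈ Finset.range m, h i (s * ζ ^ j) w) / m with hQ
  set E : ℂ → ℂ := fun w => F 0 w * Q 0 w + F 1 w * Q 1 w - 1 with hE
  have hmR : (0 : ℝ) < m := by exact_mod_cast hm
  have hQb : ∀ i, ∀ w ∈ ball (0 : ℂ) √(1 - 11 / 10 * t), ‖Q i w‖ ≤ C := by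
    intro i w hw
    rw [hQ]
    simp only [norm_div, Complex.norm_natCast]
    rw [div_le_iff₀ hmR]
    calc _ ≤ ∑ j ∈ Finset.range m, ‖h i (s * ζ ^ j) w‖ := norm_sum_le _ _
      _ ≤ ∑ _j ∈ Finset.range m, C :=
        Finset.sum_le_sum fun j hj => h1b i j (Finset.mem_range.1 hj) w hw
      _ = C * m := by rw [Finset.sum_const, Finset.card_range, nsmul_eq_mul]; ring
  have hEd : DifferentiableOn ℂ E (ball 0 √(1 - 11 / 10 * t)) := by
    intro w hw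
    have a1 : ∀ i, DifferentiableAt ℂ (F i) w := fun i =>
      (hF i).differentiableAt (isOpen_ball.mem_nhds (hsub w hw))
    have a2 : ∀ i, DifferentiableAt ℂ (Q i) w := by
      intro i
      apply DifferentiableAt.div_const
      apply DifferentiableAt.fun_sum
      intro j hj
      exact (h1 i j (Finset.mem_range.1 hj)).differentiableAt (isOpen_ball.mem_nhds hw)
    exact ((((a1 0).mul (a2 0)).add ((a1 1).mul (a2 1))).sub_const 1).differentiableWithinAt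
  have hEM : ∀ w ∈ ball (0 : ℂ) √(1 - 11 / 10 * t), ‖E w‖ ≤ 8 * C + 1 := by
    intro w hw
    have b : ∀ i, ‖F i w * Q i w‖ ≤ 4 * C := by
      intro i
      rw [norm_mul]
      gcongr
      · exact hFb i w (hsub w hw)
      · exact hQb i w hw
    calc ‖E w‖ ≤ ‖F 0 w * Q 0 w + F 1 w * Q 1 w‖ + ‖(1 : ℂ)‖ := norm_sub_le _ _
      _ ≤ (‖F 0 w * Q 0 w‖ + ‖F 1 w * Q 1 w‖) + ‖(1 : ℂ)‖ := by
          gcongr
          exact norm_add_le _ _
      _ ≤ 8 * C + 1 := by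
          rw [norm_one]
          linarith [b 0, b 1]
  have hEs : ∀ w : ℂ, ‖w‖ = √(1 - 20 * t) → ‖E w‖ ≤ 16 * C * (1 / 2) ^ m := by
    intro w hw
    have hw2 : ‖w‖ ^ 2 < 1 - 18 * t := by
      rw [hw, Real.sq_sqrt (by linarith)]; linarith
    have hw1 : ‖w‖ < 1 := by nlinarith [norm_nonneg w]
    have b1 : E w = F 0 w * (Q 0 w - h 0 0 w) + F 1 w * (Q 1 w - h 1 0 w) := by
      have b2 := h3 w hw2
      rw [Fin.sum_univ_two] at b2
      rw [hE]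
      simp only
      linear_combination b2
    have b : ∀ i, ‖F i w * (Q i w - h i 0 w)‖ ≤ 4 * (2 * C * (1 / 2) ^ m) := by
      intro i
      rw [norm_mul]
      gcongr
      · exact hFb i w (mem_ball_zero_iff.2 hw1)
      · exact avg_roots hs (h2 i w hw2) (h2b i w hw2) hm hζ
    rw [b1]
    refine (norm_add_le _ _).trans ?_
    linarith [b 0, b 1]
  have hfin := two_const (E := E) (r₁ := √(1 - 20 * t)) (w₀ := w₀) (r₂ := √(1 - 3 / 2 * t))
    (r₃ := √(1 - 11 / 10 * t)) (M := 8 * C + 1) (ε := 16 * C * (1 / 2) ^ m)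
    (Real.sqrt_pos.2 (by linarith)) (by rw [hw0]; exact Real.sqrt_lt_sqrt (by linarith) (by linarith))
    (by rw [hw0]; exact Real.sqrt_lt_sqrt (by linarith) (by linarith))
    (Real.sqrt_lt_sqrt (by linarith) (by linarith)) hEd hEM hEs
  have hw03 : (w₀ : ℂ) ∈ ball (0 : ℂ) √(1 - 11 / 10 * t) := by
    rw [mem_ball_zero_iff, Complex.norm_real, Real.norm_of_nonneg hw0p.le, hw0]
    exact Real.sqrt_lt_sqrt (by linarith) (by linarith)
  have hE0 : 1 - C * (‖F 0 w₀‖ + ‖F 1 w₀‖) ≤ ‖E w₀‖ := by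
    have c1 : ‖F 0 (w₀ : ℂ) * Q 0 w₀ + F 1 w₀ * Q 1 w₀‖ ≤ C * (‖F 0 w₀‖ + ‖F 1 w₀‖) := by
      calc _ ≤ ‖F 0 (w₀ : ℂ) * Q 0 w₀‖ + ‖F 1 (w₀ : ℂ) * Q 1 w₀‖ := norm_add_le _ _
        _ = ‖F 0 (w₀ : ℂ)‖ * ‖Q 0 w₀‖ + ‖F 1 (w₀ : ℂ)‖ * ‖Q 1 w₀‖ := by rw [norm_mul, norm_mul]
        _ ≤ ‖F 0 (w₀ : ℂ)‖ * C + ‖F 1 (w₀ : ℂ)‖ * C := by
            gcongr
            · exact hQb 0 _ hw03
            · exact hQb 1 _ hw03
        _ = _ := by ring
    have c2 : ‖(1 : ℂ)‖ ≤ ‖E w₀‖ + ‖F 0 (w₀ : ℂ) * Q 0 w₀ + F 1 w₀ * Q 1 w₀‖ := by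
      calc ‖(1 : ℂ)‖ = ‖-E w₀ + (F 0 (w₀ : ℂ) * Q 0 w₀ + F 1 w₀ * Q 1 w₀)‖ := by
            congr 1
            rw [hE]
            ring
        _ ≤ ‖-E w₀‖ + ‖F 0 (w₀ : ℂ) * Q 0 w₀ + F 1 w₀ * Q 1 w₀‖ := norm_add_le _ _
        _ = _ := by rw [norm_neg]
    rw [norm_one] at c2
    linarith
  refine hE0.trans (hfin.trans ?_)
  obtain ⟨c1, c2, c3⟩ := theta_bound ht ht1
  rw [← hw0] at c1 c2 c3
  have hε0 : 0 ≤ 16 * C * (1 / 2 : ℝ) ^ m := by positivity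
  gcongr ?_ * ?_
  · exact Real.rpow_le_rpow_of_exponent_ge' hε0 hC1 (by norm_num) c1
  · calc (8 * C + 1) ^ ((Real.log w₀ - Real.log √(1 - 20 * t)) /
        (Real.log √(1 - 3 / 2 * t) - Real.log √(1 - 20 * t))) ≤ (8 * C + 1) ^ (1 : ℝ) :=
          Real.rpow_le_rpow_of_exponent_le (by linarith) c2
      _ = 8 * C + 1 := Real.rpow_one _

variable {n : ℕ} {η : ℝ} {s : ℕ → ℝ}

lemma Good.isOpen_dom (h : Good η s) : IsOpen {x : Fin (n + 2) → ℂ | rhoV (uS s) x < 0} :=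
  isOpen_lt (contDiff_rhoV (N := 1) h.contDiff).continuous continuous_const

/-- points over the roots of unity -/
lemma Good.mem_root (h : Good η s) (k : ℕ) {a w : ℂ} (ha : a ^ (k + 1) = 1)
    (hw : ‖w‖ ^ 2 < 1 - 11 / 10 * s k ^ 2) :
    rhoV (uS s) (Phi n k (s k * a) w) < 0 := by
  have hs := h.pos k
  have hs1 := h.le' k
  have hβ := bet_pos k
  have hb0 := bb_nonneg k
  have hb1 := bb_lt k
  have hna : ‖a‖ = 1 := by
    have h1 : ‖a‖ ^ (k + 1) = 1 := by rw [← norm_pow, ha, norm_one]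
    exact (pow_eq_one_iff_of_nonneg (norm_nonneg a) (Nat.succ_ne_zero k)).1 h1
  have hnξ : ‖(s k : ℂ) * a‖ = s k := by
    rw [norm_mul, hna, mul_one, Complex.norm_real, Real.norm_of_nonneg hs.le]
  have hu : uS s (bb k + bet k * (s k * a)) = 0 := by
    have h1 : ‖(bb k : ℂ) + bet k * (s k * a) - bb k‖ < bet k / 50 := by
      rw [add_sub_cancel_left, norm_mul, hnξ, Complex.norm_real, Real.norm_of_nonneg hβ.le]
      nlinarith
    rw [h.u_eq h1]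
    unfold U
    have h2 : ((bb k : ℂ) + bet k * (s k * a) - bb k) / ((s k * bet k : ℝ) : ℂ) = a := by
      have h3 : ((s k * bet k : ℝ) : ℂ) ≠ 0 := by
        exact_mod_cast (mul_pos hs hβ).ne'
      rw [div_eq_iff h3]
      push_cast
      ring
    rw [h2, PP_root (Nat.succ_pos k) ha, mul_zero]
  rw [rho_chart, hu, mul_zero, Real.exp_zero, one_mul, hnξ]
  have h1 : 0.999 ≤ ‖1 - (bb k : ℂ) * (s k * a)‖ := by
    have h2 := norm_sub_norm_le (1 : ℂ) ((bb k : ℂ) * (s k * a))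
    rw [norm_one, norm_mul, hnξ, Complex.norm_real, Real.norm_of_nonneg hb0] at h2
    nlinarith
  set d := ‖1 - (bb k : ℂ) * (s k * a)‖ with hd
  have h2 : 0.998 ≤ d ^ 2 := by nlinarith
  have h3 : d ^ 2 * ‖w‖ ^ 2 < d ^ 2 * (1 - 11 / 10 * s k ^ 2) :=
    mul_lt_mul_of_pos_left hw (by linarith)
  have h4 : d ^ 2 * ‖w‖ ^ 2 - (d ^ 2 - s k ^ 2) < 0 := by
    nlinarith [mul_nonneg (sub_nonneg.2 h2) (sq_nonneg (s k))]
  exact mul_neg_of_pos_of_neg hβ h4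

/-- points over the disc of radius `2 s` -/
lemma Good.mem_disc (h : Good η s) (k : ℕ) {ξ w : ℂ} (hξ : ‖ξ‖ ≤ 2 * s k)
    (hw : ‖w‖ ^ 2 < 1 - 18 * s k ^ 2) :
    rhoV (uS s) (Phi n k ξ w) < 0 := by
  have hs := h.pos k
  have hs1 := h.le' k
  have hβ := bet_pos k
  have hb0 := bb_nonneg k
  have hb1 := bb_lt k
  have hξ0 := norm_nonneg ξ
  have hu : uS s (bb k + bet k * ξ) ≤ 6.8 * s k ^ 2 := by
    have h1 : ‖(bb k : ℂ) + bet k * ξ - bb k‖ < bet k / 50 := by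
      rw [add_sub_cancel_left, norm_mul, Complex.norm_real, Real.norm_of_nonneg hβ.le]
      nlinarith
    rw [h.u_eq h1]
    unfold U
    rw [mul_comm]
    gcongr
    exact PP_le (Nat.succ_pos k) _
  rw [rho_chart]
  have h1 : 0.998 ≤ ‖1 - (bb k : ℂ) * ξ‖ := by
    have h2 := norm_sub_norm_le (1 : ℂ) ((bb k : ℂ) * ξ)
    rw [norm_one, norm_mul, Complex.norm_real, Real.norm_of_nonneg hb0] at h2
    nlinarith
  set d := ‖1 - (bb k : ℂ) * ξ‖ with hd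
  set t := s k ^ 2 with ht
  have ht0 : 0 < t := h.t_pos k
  have ht1 : t ≤ 1 / 400 := h.t_le k
  have h2 : 0.996 ≤ d ^ 2 := by nlinarith
  have h3 : ‖ξ‖ ^ 2 ≤ 4 * t := by
    calc ‖ξ‖ ^ 2 ≤ (2 * s k) ^ 2 := by gcongr
      _ = 4 * t := by rw [ht]; ring
  have e2 : Real.exp (2 * uS s (bb k + bet k * ξ)) ≤ Real.exp (13.6 * t) :=
    Real.exp_le_exp.2 (by linarith)
  have e3 : Real.exp (13.6 * t) * (1 - 13.6 * t) ≤ 1 := by
    have h4 := Real.add_one_le_exp (-(13.6 * t))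
    calc Real.exp (13.6 * t) * (1 - 13.6 * t) ≤ Real.exp (13.6 * t) * Real.exp (-(13.6 * t)) := by
          gcongr
          linarith
      _ = 1 := by rw [← Real.exp_add]; simp
  have h8 : Real.exp (13.6 * t) * (1 - 18 * t) ≤ 1 - 4.1 * t := by
    have h9 : (1 - 18 * t) ≤ (1 - 13.6 * t) * (1 - 4.1 * t) := by nlinarith
    calc Real.exp (13.6 * t) * (1 - 18 * t) ≤
        Real.exp (13.6 * t) * ((1 - 13.6 * t) * (1 - 4.1 * t)) := by gcongr
      _ = (Real.exp (13.6 * t) * (1 - 13.6 * t)) * (1 - 4.1 * t) := by ring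
      _ ≤ 1 * (1 - 4.1 * t) := by
          gcongr
          linarith
      _ = _ := one_mul _
  have h9 : Real.exp (2 * uS s (bb k + bet k * ξ)) * (d ^ 2 * ‖w‖ ^ 2) <
      d ^ 2 * (1 - 4.1 * t) := by
    calc Real.exp (2 * uS s (bb k + bet k * ξ)) * (d ^ 2 * ‖w‖ ^ 2)
        ≤ Real.exp (13.6 * t) * (d ^ 2 * ‖w‖ ^ 2) := by gcongr
      _ = d ^ 2 * (Real.exp (13.6 * t) * ‖w‖ ^ 2) := by ring
      _ < d ^ 2 * (Real.exp (13.6 * t) * (1 - 18 * t)) := by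
          have : 0 < d ^ 2 := by linarith
          gcongr
      _ ≤ d ^ 2 * (1 - 4.1 * t) := by gcongr
  have h10 : Real.exp (2 * uS s (bb k + bet k * ξ)) * (d ^ 2 * ‖w‖ ^ 2) - (d ^ 2 - ‖ξ‖ ^ 2) < 0 := by
    nlinarith
  exact mul_neg_of_pos_of_neg hβ h10

lemma diff_Phi_left (k : ℕ) (w : ℂ) : Differentiable ℂ (fun ξ => Phi n k ξ w) := by
  unfold Phi
  rw [differentiable_pi]
  intro i
  refine Fin.cases ?_ (fun i => ?_) i
  · change Differentiable ℂ (fun ξ : ℂ => (bb k : ℂ) + bet k * ξ)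
    fun_prop
  · refine Fin.cases ?_ (fun i => ?_) i
    · change Differentiable ℂ (fun ξ : ℂ => (√(bet k) : ℂ) * (1 - bb k * ξ) * w)
      fun_prop
    · exact differentiable_const _

lemma diff_Phi_right (k : ℕ) (ξ : ℂ) : Differentiable ℂ (fun w => Phi n k ξ w) := by
  unfold Phi
  rw [differentiable_pi]
  intro i
  refine Fin.cases ?_ (fun i => ?_) i
  · exact differentiable_const _
  · refine Fin.cases ?_ (fun i => ?_) i
    · change Differentiable ℂ (fun w : ℂ => (√(bet k) : ℂ) * (1 - bb k * ξ) * w)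
      fun_prop
    · exact differentiable_const _

/-- no bounded solution -/
lemma Good.no_bounded (hg : Good η s) (h : Fin 2 → (Fin (n + 2) → ℂ) → ℂ)
    (hh : ∀ j, DifferentiableOn ℂ (h j) {x | rhoV (uS s) x < 0})
    (heq : ∀ x, rhoV (uS s) x < 0 → ∑ j, FF s j x * h j x = 1) (C : ℝ) :
    ∃ j x, rhoV (uS s) x < 0 ∧ C < ‖h j x‖ := by
  by_contra hcon
  push Not at hcon
  have hC0 : 0 ≤ C := (norm_nonneg _).trans (hcon 0 0 (rhoV_zero_neg _))
  -- the estimate for every `k`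
  have key : ∀ k : ℕ, 16 * C * (1 / 2) ^ (k + 1) ≤ 1 →
      1 - C * (‖FF s 0 (pk n s k)‖ + ‖FF s 1 (pk n s k)‖) ≤
        (16 * C * (1 / 2) ^ (k + 1)) ^ (1 / 40 : ℝ) * (8 * C + 1) := by
    intro k hk
    have hroot : ∀ j : ℕ, (Complex.exp (2 * Real.pi * Complex.I / ((k + 1 : ℕ) : ℂ)) ^ j) ^ (k + 1) =
        1 := by
      intro j
      rw [← pow_mul, mul_comm j (k + 1), pow_mul,
        (Complex.isPrimitiveRoot_exp (k + 1) (Nat.succ_ne_zero k)).pow_eq_one, one_pow]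
    have ht := hg.t_pos k
    have ht1 := hg.t_le k
    have hmem1 : ∀ (j : ℕ) (w : ℂ), w ∈ ball (0 : ℂ) √(1 - 11 / 10 * s k ^ 2) →
        rhoV (uS s) (Phi n k (s k *
          Complex.exp (2 * Real.pi * Complex.I / ((k + 1 : ℕ) : ℂ)) ^ j) w) < 0 := by
      intro j w hw
      apply hg.mem_root k (hroot j)
      rw [mem_ball_zero_iff, Real.lt_sqrt (norm_nonneg _)] at hw
      exact hw
    refine main_est2 (h := fun i ξ w => h i (Phi n k ξ w)) (F := fun i w => FF s i (Phi n k 0 w))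
      (hg.pos k) ht ht1 rfl (Nat.succ_pos k)
      (Complex.isPrimitiveRoot_exp (k + 1) (Nat.succ_ne_zero k)) ?_ ?_ ?_ ?_ ?_ ?_ ?_ hk
    · intro i w hw
      have h1 : nsq (Phi n k 0 w) < 1 := nsq_Phi0 k (mem_ball_zero_iff.1 hw)
      exact (((hg.diff_FF i).differentiableAt (isOpen_ball'.mem_nhds h1)).comp w
        (diff_Phi_right k 0 w)).differentiableWithinAt
    · intro i w hw
      exact hg.FF_le i (nsq_Phi0 k (mem_ball_zero_iff.1 hw))
    · intro i j _ w hw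
      exact (((hh i).differentiableAt (hg.isOpen_dom.mem_nhds (hmem1 j w hw))).comp w
        (diff_Phi_right k _ w)).differentiableWithinAt
    · intro i j _ w hw
      exact hcon i _ (hmem1 j w hw)
    · intro i w hw
      apply DifferentiableOn.diffContOnCl
      intro z hz
      have hz' : z ∈ closedBall (0 : ℂ) (2 * s k) := closure_ball_subset_closedBall hz
      have h1 : rhoV (uS s) (Phi n k z w) < 0 := hg.mem_disc k (mem_closedBall_zero_iff.1 hz') hw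
      exact (((hh i).differentiableAt (hg.isOpen_dom.mem_nhds h1)).comp z
        (diff_Phi_left k w z)).differentiableWithinAt
    · intro i w hw z hz
      exact hcon i _ (hg.mem_disc k (mem_closedBall_zero_iff.1 hz) hw)
    · intro w hw
      apply heq
      apply hg.mem_disc k _ hw
      rw [norm_zero]
      have := hg.pos k
      positivity
  -- limits
  have t1 : Tendsto (fun k : ℕ => 16 * C * (1 / 2 : ℝ) ^ (k + 1)) atTop (𝓝 0) := by
    have := ((tendsto_pow_atTop_nhds_zero_of_lt_one (r := (1 / 2 : ℝ)) (by norm_num)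
      (by norm_num)).comp (tendsto_add_atTop_nat 1)).const_mul (16 * C)
    rwa [mul_zero] at this
  have t2 : Tendsto (fun k : ℕ => (16 * C * (1 / 2 : ℝ) ^ (k + 1)) ^ (1 / 40 : ℝ) * (8 * C + 1))
      atTop (𝓝 0) := by
    have h3 := ((Real.continuousAt_rpow_const (0 : ℝ) (1 / 40 : ℝ)
      (Or.inr (by norm_num))).tendsto.comp t1).mul_const (8 * C + 1)
    rw [Real.zero_rpow (by norm_num), zero_mul] at h3
    exact h3
  have t3 : Tendsto (fun k : ℕ => 1 - C * (‖FF s 0 (pk n s k)‖ + ‖FF s 1 (pk n s k)‖)) atTop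
      (𝓝 1) := by
    have h3 := ((((hg.tend_FF (n := n) 0).add (hg.tend_FF (n := n) 1)).const_mul C).const_sub 1)
    rwa [add_zero, mul_zero, sub_zero] at h3
  obtain ⟨k, a1, a2, a3⟩ := ((t1.eventually (eventually_le_nhds one_pos)).and
    ((t2.eventually (eventually_lt_nhds (by norm_num : (0 : ℝ) < 1 / 2))).and
      (t3.eventually (eventually_gt_nhds (by norm_num : (1 / 2 : ℝ) < 1))))).exists
  have := key k a1
  linarith

end Pool.Agent.U500.Cone
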